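import Mathlib
import Pool.Agent.FewG.Defs

/-!
# Nondeterministic circuits and hard distributions, definitions
-/

set_option autoImplicit false

namespace Pool.Agent.TAvg

open Pool.Agent.FewNeg Pool.Agent.FewG

/-- `C` is a nondeterministic circuit with at most `s` AND and OR gates, with free functions of the
guess and of the variables in `S`. -/
def NSize {n g : ℕ} (S : Finset (Fin n)) (s : ℕ) (C : NF (Fin n) (Fin g → Bool)) : Prop :=
  ∃ (L : List (NF (Fin n) (Fin g → Bool) × ℕ)) (s' d : ℕ), NSLP S L s' ∧ (C, d) ∈ L ∧ s' ≤ s

/-- The nondeterministic circuit `C` accepts `x` with some guess, even when all negated variables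
outside some set of at most `w` variables are replaced by `0`. -/
def NAcc {n g : ℕ} (w : ℕ) (C : NF (Fin n) (Fin g → Bool)) (x : Fin n → Bool) : Prop :=
  ∃ (y : Fin g → Bool) (B : Finset (Fin n)), B.card ≤ w ∧
    C x (fun i => decide (i ∈ B) && !(x i)) y = true

/-- `C` accepts, with any guess, only inputs `x` with `f x = 1`. -/
def NSound {n g : ℕ} (f : BF (Fin n)) (C : NF (Fin n) (Fin g → Bool)) : Prop :=
  ∀ (x : Fin n → Bool) (y : Fin g → Bool), C x (fun i => !(x i)) y = true → f x = true

end Pool.Agent.TAvg
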