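import Mathlib

/-!
# Hard distributions
-/

set_option autoImplicit false

namespace Pool.Agent.TAvg

/-- There is a probability distribution `w` on the finite set `X` such that every function `g` in the
class `𝒢` agrees with `f` with probability less than `(1 + 1 / e) / 2`. -/
def HardDist {X : Type} [Fintype X] (𝒢 : (X → Bool) → Prop) (f : X → Bool) (e : ℕ) : Prop :=
  ∃ w : X → ℝ, (∀ x, 0 ≤ w x) ∧ ∑ x, w x = 1 ∧
    ∀ g, 𝒢 g → ∑ x ∈ Finset.univ.filter (fun x => g x = f x), w x < (1 + 1 / (e : ℝ)) / 2

end Pool.Agent.TAvg
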