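import Mathlib

/-!
# The lemma of Farkas over the rational numbers (copied from Pool/Agent/MonFPT/Farkas.lean)
-/

set_option autoImplicit false

namespace Pool.Agent.TAvg


/-- Farkas' lemma over the rationals. -/
theorem farkas {V : Type} [AddCommGroup V] [Module ℚ V] (C : Finset V) (t : V) :
    t ∈ PointedCone.hull ℚ (C : Set V) ∨
      ∃ w : V →ₗ[ℚ] ℚ, (∀ c ∈ C, 0 ≤ w c) ∧ w t < 0 := by
  classical
  suffices h : ∀ n : ℕ, ∀ (C : Finset V), C.card ≤ n → ∀ t : V,
      t ∈ PointedCone.hull ℚ (C : Set V) ∨ ∃ w : V →ₗ[ℚ] ℚ, (∀ c ∈ C, 0 ≤ w c) ∧ w t < 0 from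
    h _ C le_rfl t
  intro n
  induction n with
  | zero =>
    intro C hC t
    have hC0 : C = ∅ := Finset.card_eq_zero.mp (Nat.le_zero.mp hC)
    subst hC0
    by_cases ht : t = 0
    · left; subst ht; exact Submodule.zero_mem _
    · right
      have h1 : ¬ ∀ φ : Module.Dual ℚ V, φ t = 0 := fun h =>
        ht ((Module.forall_dual_apply_eq_zero_iff ℚ t).mp h)
      push Not at h1
      obtain ⟨φ, hφ⟩ := h1
      rcases lt_or_gt_of_ne hφ with h2 | h2
      · exact ⟨φ, by simp, h2⟩
      · exact ⟨-φ, by simp, by simpa using h2⟩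
  | succ n ih =>
    intro C hC t
    rcases C.eq_empty_or_nonempty with rfl | ⟨c, hc⟩
    · exact ih ∅ (by simp) t
    have hC1 : (C.erase c).card ≤ n := by
      rw [Finset.card_erase_of_mem hc]; omega
    rcases ih (C.erase c) hC1 t with h | ⟨w0, hw0, hw0t⟩
    · left
      exact Submodule.span_mono (by exact_mod_cast Finset.erase_subset c C) h
    by_cases hwc : 0 ≤ w0 c
    · right
      refine ⟨w0, fun d hd => ?_, hw0t⟩
      by_cases hdc : d = c
      · rw [hdc]; exact hwc
      · exact hw0 d (Finset.mem_erase.mpr ⟨hdc, hd⟩)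
    push Not at hwc
    -- projection along c
    let π : V →ₗ[ℚ] V := (-(w0 c)) • LinearMap.id + w0.smulRight c
    have hπ : ∀ v, π v = (-(w0 c)) • v + w0 v • c := fun v => rfl
    have hπc : π c = 0 := by rw [hπ]; rw [← add_smul]; simp
    have hC2 : ((C.erase c).image π).card ≤ n := Finset.card_image_le.trans hC1
    rcases ih ((C.erase c).image π) hC2 (π t) with h | ⟨w', hw', hw't⟩
    · left
      -- every element of the cone over the image is `π v` with `v` in the cone over `C.erase c`
      have key : ∀ z ∈ PointedCone.hull ℚ (((C.erase c).image π : Finset V) : Set V),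
          ∃ v ∈ PointedCone.hull ℚ ((C.erase c : Finset V) : Set V), z = π v ∧ 0 ≤ w0 v := by
        intro z hz
        refine Submodule.span_induction ?_ ?_ ?_ ?_ hz
        · intro x hx
          simp only [Finset.coe_image, Set.mem_image] at hx
          obtain ⟨d, hd, rfl⟩ := hx
          exact ⟨d, Submodule.subset_span hd, rfl, hw0 d hd⟩
        · exact ⟨0, Submodule.zero_mem _, by simp, by simp⟩
        · rintro _ _ _ _ ⟨v1, hv1, rfl, h1⟩ ⟨v2, hv2, rfl, h2⟩
          exact ⟨v1 + v2, Submodule.add_mem _ hv1 hv2, by simp, by simpa using add_nonneg h1 h2⟩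
        · rintro ⟨r, hr⟩ _ _ ⟨v, hv, rfl, h⟩
          refine ⟨r • v, PointedCone.smul_mem _ hr hv, ?_, ?_⟩
          · rw [map_smul]; rfl
          · rw [map_smul]; exact mul_nonneg hr h
      obtain ⟨v, hv, hvt, hwv⟩ := key _ h
      have hsub : PointedCone.hull ℚ ((C.erase c : Finset V) : Set V) ≤
          PointedCone.hull ℚ (C : Set V) :=
        Submodule.span_mono (by exact_mod_cast Finset.erase_subset c C)
      have hpos : 0 < -(w0 c) := by linarith
      have heq : (-(w0 c)) • t = (-(w0 c)) • v + (w0 v - w0 t) • c := by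
        rw [hπ, hπ] at hvt
        rw [sub_smul]
        have := hvt
        rw [← sub_eq_zero] at this ⊢
        rw [← this]; abel
      have hmem : (-(w0 c)) • t ∈ PointedCone.hull ℚ (C : Set V) := by
        rw [heq]
        exact Submodule.add_mem _ (PointedCone.smul_mem _ hpos.le (hsub hv))
          (PointedCone.smul_mem _ (by linarith) (Submodule.subset_span hc))
      exact (PointedCone.smul_mem_iff _ hpos).mp hmem
    · right
      refine ⟨w'.comp π, fun d hd => ?_, by simpa using hw't⟩
      by_cases hdc : d = c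
      · rw [hdc]; simp [hπc]
      · exact hw' _ (Finset.mem_image_of_mem π (Finset.mem_erase.mpr ⟨hdc, hd⟩))

end Pool.Agent.TAvg
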