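import Mathlib
import Pool.Agent.TAvg.Defs
import Pool.Agent.TAvg.Farkas

/-!
# The minimax theorem for Boolean functions

PACKAGE. Prove `minimax_bool` from the lemma of Farkas over the rational numbers,
`farkas` (file `Farkas.lean`) (helper lemmas allowed, keep the statement).

PROOF. Let `G` be the finite set of all `g : X → Bool` with `𝒢 g`. For `g` in `G` let
`v g x = (if g x = f x then 2 e else 0) - (e + 1)` (rational). In `V = (X → ℚ) × ℚ` let `C` be the
finite set of the vectors `(v g, 1)`, `g` in `G`, and `(- Pi.single x 1, 0)`, `x` in `X`, and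
`t = (0, 1)`. By `farkas C t` there are two cases.
(1) `t` is in the cone: `t = ∑ p g • (v g, 1) + ∑ s x • (- Pi.single x 1, 0)` with nonnegative
rational `p`, `s`. So `∑ p g = 1` and `∑ p g * v g x = s x ≥ 0` for all `x`. Let `p g = a g / N` with
natural numbers `a g` and `N > 0`. Then `K = ∑ a g = N > 0`, and the sequence in which every `g`
appears `a g` times satisfies `2 e * #{k | g k x = f x} - (e + 1) * K = N * s x ≥ 0`.
(2) there is a linear `w` with `0 ≤ w (v g, 1)`, `0 ≤ w (- Pi.single x 1, 0)` and `w (0, 1) < 0`. Let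
`u x = w (- Pi.single x 1, 0) ≥ 0`. Then `w (v g, 1) = - ∑ x, v g x * u x + w (0, 1)`, so
`∑ x, v g x * u x ≤ w (0, 1) < 0` for all `g` in `G`. If `∑ u > 0`, then `u / ∑ u` (as real numbers)
is a distribution, with `2 e * ∑ (g x = f x) u x < (e + 1) ∑ u`, and `h` is contradicted. If `u = 0`
then `G` is empty, and any distribution contradicts `h`.
(To find `p`, `s` in (1) use for instance `Submodule.mem_span_finset` for the pointed cone, or
`Submodule.span_induction` with the statement: there is `n > 0` such that `n • t` is a sum of a list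
of elements of `C`.)
-/

set_option autoImplicit false

namespace Pool.Agent.TAvg

section

variable {X : Type} [Fintype X]

open Classical in
/-- the vector of a function -/
private noncomputable def mmv (f : X → Bool) (e : ℕ) (g : X → Bool) : X → ℚ := fun x =>
  (if g x = f x then 2 * (e : ℚ) else 0) - (e + 1)

open Classical in
/-- the generators of the cone -/
private noncomputable def mmC (𝒢 : (X → Bool) → Prop) (f : X → Bool) (e : ℕ) :
    Finset ((X → ℚ) × ℚ) :=
  (Finset.univ.filter 𝒢).image (fun g => (mmv f e g, 1)) ∪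
    Finset.univ.image (fun x : X => (-Pi.single x 1, 0))

open Classical in
private theorem mm_cone (𝒢 : (X → Bool) → Prop) (f : X → Bool) (e : ℕ) {v : (X → ℚ) × ℚ}
    (hv : v ∈ PointedCone.hull ℚ (mmC 𝒢 f e : Set ((X → ℚ) × ℚ))) :
    ∃ (n : ℕ) (a : (X → Bool) → ℕ) (b : X → ℕ), 0 < n ∧ (∀ g, ¬ 𝒢 g → a g = 0) ∧
      (n : ℚ) • v = ∑ g, (a g : ℚ) • ((mmv f e g, 1) : (X → ℚ) × ℚ) +
        ∑ x, (b x : ℚ) • ((-Pi.single x 1, 0) : (X → ℚ) × ℚ) := by
  refine Submodule.span_induction ?_ ?_ ?_ ?_ hv
  · intro x hx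
    rw [Finset.mem_coe, mmC, Finset.mem_union, Finset.mem_image, Finset.mem_image] at hx
    rcases hx with ⟨g, hg, rfl⟩ | ⟨y, -, rfl⟩
    · rw [Finset.mem_filter] at hg
      refine ⟨1, fun g' => if g' = g then 1 else 0, 0, one_pos, fun g' hg' => ?_, ?_⟩
      · show (if g' = g then 1 else 0) = 0
        rw [if_neg]
        rintro rfl
        exact hg' hg.2
      · have h1 : ∑ x : X → Bool, (((if x = g then 1 else 0 : ℕ) : ℕ) : ℚ) •
            ((mmv f e x, 1) : (X → ℚ) × ℚ) = (mmv f e g, 1) := by
          rw [Finset.sum_eq_single g, if_pos rfl]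
          · simp
          · intro b _ hb
            rw [if_neg hb, Nat.cast_zero, zero_smul]
          · intro h
            exact absurd (Finset.mem_univ _) h
        rw [h1]
        simp
    · refine ⟨1, 0, fun y' => if y' = y then 1 else 0, one_pos, fun g' hg' => rfl, ?_⟩
      have h1 : ∑ x, (((if x = y then 1 else 0 : ℕ) : ℕ) : ℚ) •
          ((-Pi.single x 1, 0) : (X → ℚ) × ℚ) = (-Pi.single y 1, 0) := by
        rw [Finset.sum_eq_single y, if_pos rfl]
        · simp
        · intro b _ hb
          rw [if_neg hb, Nat.cast_zero, zero_smul]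
        · intro h
          exact absurd (Finset.mem_univ _) h
      rw [h1]
      simp
  · exact ⟨1, 0, 0, one_pos, fun _ _ => rfl, by simp⟩
  · rintro x y - - ⟨n, a, b, hn, ha, h⟩ ⟨n', a', b', hn', ha', h'⟩
    refine ⟨n * n', fun g => n' * a g + n * a' g, fun x => n' * b x + n * b' x,
      Nat.mul_pos hn hn', fun g hg => by simp [ha g hg, ha' g hg], ?_⟩
    have e1 : ((n * n' : ℕ) : ℚ) • (x + y) = (n' : ℚ) • ((n : ℚ) • x) + (n : ℚ) • ((n' : ℚ) • y) := by
      rw [smul_add, smul_smul, smul_smul]
      push_cast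
      rw [mul_comm (n' : ℚ)]
    rw [e1, h, h', smul_add, smul_add, Finset.smul_sum, Finset.smul_sum, Finset.smul_sum,
      Finset.smul_sum]
    have e2 : ∀ g : X → Bool, ((n' * a g + n * a' g : ℕ) : ℚ) • ((mmv f e g, 1) : (X → ℚ) × ℚ) =
        (n' : ℚ) • (a g : ℚ) • ((mmv f e g, 1) : (X → ℚ) × ℚ) +
          (n : ℚ) • (a' g : ℚ) • ((mmv f e g, 1) : (X → ℚ) × ℚ) := by
      intro g
      rw [smul_smul, smul_smul, ← add_smul]
      push_cast
      rfl
    have e3 : ∀ z : X, ((n' * b z + n * b' z : ℕ) : ℚ) • ((-Pi.single z 1, 0) : (X → ℚ) × ℚ) =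
        (n' : ℚ) • (b z : ℚ) • ((-Pi.single z 1, 0) : (X → ℚ) × ℚ) +
          (n : ℚ) • (b' z : ℚ) • ((-Pi.single z 1, 0) : (X → ℚ) × ℚ) := by
      intro z
      rw [smul_smul, smul_smul, ← add_smul]
      push_cast
      rfl
    rw [Finset.sum_congr rfl fun g _ => e2 g, Finset.sum_congr rfl fun z _ => e3 z,
      Finset.sum_add_distrib, Finset.sum_add_distrib]
    abel
  · rintro ⟨r, hr⟩ x - ⟨n, a, b, hn, ha, h⟩
    have hr' : 0 ≤ r.num := Rat.num_nonneg.2 hr
    refine ⟨r.den * n, fun g => r.num.toNat * a g, fun x => r.num.toNat * b x,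
      Nat.mul_pos r.den_pos hn, fun g hg => by simp [ha g hg], ?_⟩
    have e0 : ((r.num.toNat : ℕ) : ℚ) = r.den * r := by
      have h1 : ((r.num.toNat : ℕ) : ℚ) = ((r.num.toNat : ℤ) : ℚ) := (Int.cast_natCast _).symm
      rw [h1, Int.toNat_of_nonneg hr', mul_comm, Rat.mul_den_eq_num]
    have e1 : ((r.den * n : ℕ) : ℚ) • ((⟨r, hr⟩ : {c : ℚ // 0 ≤ c}) • x) =
        ((r.num.toNat : ℕ) : ℚ) • ((n : ℚ) • x) := by
      have h1 : (⟨r, hr⟩ : {c : ℚ // 0 ≤ c}) • x = r • x := rfl
      rw [h1, smul_smul, smul_smul, e0]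
      push_cast
      congr 1
      ring
    rw [e1, h, smul_add, Finset.smul_sum, Finset.smul_sum]
    congr 1
    · refine Finset.sum_congr rfl fun g _ => ?_
      rw [smul_smul]
      push_cast
      rfl
    · refine Finset.sum_congr rfl fun g _ => ?_
      rw [smul_smul]
      push_cast
      rfl

open Classical in
private theorem mm_seq (a : (X → Bool) → ℕ) {n : ℕ} (hn : ∑ g, a g = n) :
    ∃ s : Fin n → X → Bool, (∀ k, a (s k) ≠ 0) ∧ ∀ P : (X → Bool) → Prop,
      (Finset.univ.filter fun k => P (s k)).card = ∑ g ∈ Finset.univ.filter P, a g := by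
  have hc : Fintype.card (Σ g : X → Bool, Fin (a g)) = n := by
    rw [Fintype.card_sigma]
    simp [hn]
  let E : (Σ g : X → Bool, Fin (a g)) ≃ Fin n := Fintype.equivFinOfCardEq hc
  refine ⟨fun k => (E.symm k).1, fun k => ?_, fun P => ?_⟩
  · intro h
    have h1 := (E.symm k).2.2
    have h2 : a (E.symm k).1 = 0 := h
    omega
  · have h1 : (Finset.univ.filter fun k : Fin n => P (E.symm k).1).card =
        (Finset.univ.filter fun q : (Σ g : X → Bool, Fin (a g)) => P q.1).card := by
      refine Finset.card_bij (fun k _ => E.symm k) ?_ ?_ ?_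
      · intro k hk
        simpa using hk
      · intro k _ k' _ hkk
        exact E.symm.injective hkk
      · intro q hq
        exact ⟨E q, by simpa using hq, by simp⟩
    rw [h1]
    have h2 : (Finset.univ.filter fun q : (Σ g : X → Bool, Fin (a g)) => P q.1) =
        (Finset.univ.filter P).sigma (fun g => (Finset.univ : Finset (Fin (a g)))) := by
      ext q
      simp
    rw [h2, Finset.card_sigma]
    simp

private theorem mm_pi (w : (X → ℚ) × ℚ →ₗ[ℚ] ℚ) (v : X → ℚ) [DecidableEq X] :
    w (v, 1) = w (0, 1) - ∑ x, v x * w (-Pi.single x 1, 0) := by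
  have h1 : ((v, 1) : (X → ℚ) × ℚ) = (0, 1) - ∑ x, v x • ((-Pi.single x 1, 0) : (X → ℚ) × ℚ) := by
    refine Prod.ext ?_ ?_
    · simp only [Prod.fst_sub, Prod.fst_sum, Prod.smul_fst]
      funext y
      simp only [Pi.sub_apply, Pi.zero_apply, Finset.sum_apply, Pi.smul_apply, Pi.neg_apply,
        smul_eq_mul]
      rw [Finset.sum_eq_single y]
      · simp
      · intro b _ hb
        rw [Pi.single_eq_of_ne hb.symm]
        simp
      · intro h
        exact absurd (Finset.mem_univ _) h
    · simp [Prod.snd_sum]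
  rw [h1, map_sub, map_sum]
  congr 1
  refine Finset.sum_congr rfl fun x _ => ?_
  rw [map_smul, smul_eq_mul]

end

theorem minimax_bool {X : Type} [Fintype X] [Nonempty X] (𝒢 : (X → Bool) → Prop) (f : X → Bool)
    {e : ℕ} (he : 1 ≤ e) (h : ¬ HardDist 𝒢 f e) :
    ∃ (K : ℕ) (g : Fin K → X → Bool), 0 < K ∧ (∀ k, 𝒢 (g k)) ∧
      ∀ x, (e + 1) * K ≤ 2 * e * (Finset.univ.filter fun k => g k x = f x).card := by
  classical
  rcases farkas (mmC 𝒢 f e) ((0, 1) : (X → ℚ) × ℚ) with h1 | ⟨w, hw, hw0⟩
  · obtain ⟨n, a, b, hn, ha, hab⟩ := mm_cone 𝒢 f e h1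
    have h2 : (n : ℚ) = ∑ g, (a g : ℚ) := by
      have := congrArg Prod.snd hab
      simpa [Prod.snd_sum] using this
    have h2' : ∑ g, a g = n := by exact_mod_cast h2.symm
    have h3 : ∀ x, ∑ g, (a g : ℚ) * mmv f e g x = b x := by
      intro x
      have h4 := congrFun (congrArg Prod.fst hab) x
      simp only [Prod.smul_fst, Pi.zero_apply, Prod.fst_add, Prod.fst_sum,
        Pi.add_apply, Finset.sum_apply, Pi.smul_apply, smul_eq_mul, Pi.neg_apply] at h4
      rw [Finset.sum_eq_single (s := Finset.univ) (f := fun c : X =>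
        (b c : ℚ) * -(Pi.single c (1 : ℚ) : X → ℚ) x) x] at h4
      · rw [Pi.single_eq_same] at h4
        linarith
      · intro c _ hc
        rw [Pi.single_eq_of_ne hc.symm]
        simp
      · intro h
        exact absurd (Finset.mem_univ _) h
    obtain ⟨s, hs1, hs2⟩ := mm_seq a h2'
    refine ⟨n, s, hn, fun k => ?_, fun x => ?_⟩
    · by_contra hk
      exact hs1 k (ha _ hk)
    · have h5 := hs2 (fun g => g x = f x)
      have h6 : (Finset.univ.filter fun k => s k x = f x).card =
          ∑ g ∈ Finset.univ.filter (fun g : X → Bool => g x = f x), a g := by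
        convert h5
      rw [h6]
      have h7 := h3 x
      have h8 : ∑ g, (a g : ℚ) * mmv f e g x =
          2 * e * ((∑ g ∈ Finset.univ.filter (fun g : X → Bool => g x = f x), a g : ℕ) : ℚ) -
            (e + 1) * n := by
        rw [h2]
        simp only [mmv, mul_sub, Finset.sum_sub_distrib]
        rw [← Finset.sum_mul, mul_comm ((e : ℚ) + 1)]
        congr 1
        push_cast
        rw [Finset.mul_sum, Finset.sum_filter]
        refine Finset.sum_congr rfl fun g _ => ?_
        by_cases hg : g x = f x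
        · rw [if_pos hg, if_pos hg]
          ring
        · rw [if_neg hg, if_neg hg]
          ring
      have h9 : (0 : ℚ) ≤ b x := Nat.cast_nonneg _
      rw [h8] at h7
      have h10 : ((e : ℚ) + 1) * n ≤
          2 * e * ((∑ g ∈ Finset.univ.filter (fun g : X → Bool => g x = f x), a g : ℕ) : ℚ) := by
        linarith
      exact_mod_cast h10
  · exfalso
    have hu : ∀ x : X, 0 ≤ w (-Pi.single x 1, 0) := by
      intro x
      refine hw _ ?_
      rw [mmC, Finset.mem_union]
      right
      exact Finset.mem_image.2 ⟨x, Finset.mem_univ _, rfl⟩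
    have hG : ∀ g, 𝒢 g → ∑ x, mmv f e g x * w (-Pi.single x 1, 0) < 0 := by
      intro g hg
      have h1 : 0 ≤ w (mmv f e g, 1) := by
        refine hw _ ?_
        rw [mmC, Finset.mem_union]
        left
        exact Finset.mem_image.2 ⟨g, by simp [hg], rfl⟩
      rw [mm_pi] at h1
      linarith
    set u : X → ℚ := fun x => w (-Pi.single x 1, 0) with hu'
    have hu1 : ∀ x, 0 ≤ u x := hu
    have hU : 0 ≤ ∑ x, u x := Finset.sum_nonneg fun x _ => hu1 x
    apply h
    rcases hU.eq_or_lt with h0 | h0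
    · obtain ⟨x₀⟩ := ‹Nonempty X›
      refine ⟨Pi.single x₀ 1, fun x => ?_, ?_, fun g hg => ?_⟩
      · by_cases hx : x = x₀
        · rw [hx, Pi.single_eq_same]
          exact zero_le_one
        · rw [Pi.single_eq_of_ne hx]
      · rw [Finset.sum_eq_single x₀]
        · exact Pi.single_eq_same _ _
        · intro b _ hb
          exact Pi.single_eq_of_ne hb _
        · intro h
          exact absurd (Finset.mem_univ _) h
      · exfalso
        have h2 : ∀ x, u x = 0 := fun x =>
          (Finset.sum_eq_zero_iff_of_nonneg fun x _ => hu1 x).1 h0.symm x (Finset.mem_univ _)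
        have h3 := hG g hg
        have h4 : ∑ x, mmv f e g x * u x = 0 := Finset.sum_eq_zero fun x _ => by
          rw [h2 x, mul_zero]
        linarith
    · refine ⟨fun x => ((u x / ∑ y, u y : ℚ) : ℝ), fun x => ?_, ?_, fun g hg => ?_⟩
      · have := div_nonneg (hu1 x) hU
        show (0 : ℝ) ≤ ((u x / ∑ y, u y : ℚ) : ℝ)
        exact_mod_cast this
      · rw [← Rat.cast_sum, ← Finset.sum_div, div_self h0.ne', Rat.cast_one]
      · have h3 := hG g hg
        have h4 : ∑ x, mmv f e g x * u x =
            2 * e * (∑ x ∈ Finset.univ.filter (fun x => g x = f x), u x) -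
              (e + 1) * ∑ x, u x := by
          simp only [mmv, sub_mul, Finset.sum_sub_distrib]
          rw [← Finset.mul_sum]
          congr 1
          rw [Finset.mul_sum, Finset.sum_filter]
          refine Finset.sum_congr rfl fun x _ => ?_
          by_cases hx : g x = f x
          · rw [if_pos hx, if_pos hx]
          · rw [if_neg hx, if_neg hx, zero_mul]
        have h5 : ∑ x, mmv f e g x * u x < 0 := h3
        rw [h4] at h5
        have he' : (0 : ℚ) < e := by exact_mod_cast he
        have h6 : (∑ x ∈ Finset.univ.filter (fun x => g x = f x), u x / ∑ y, u y) <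
            (1 + 1 / (e : ℚ)) / 2 := by
          rw [← Finset.sum_div, div_lt_iff₀ h0]
          have h7 : (1 + 1 / (e : ℚ)) / 2 * ∑ y, u y = ((e + 1) * ∑ y, u y) / (2 * e) := by
            field_simp
          rw [h7, lt_div_iff₀ (by positivity)]
          linarith
        have h8 : (((∑ x ∈ Finset.univ.filter (fun x => g x = f x), u x / ∑ y, u y : ℚ)) : ℝ) <
            (((1 + 1 / (e : ℚ)) / 2 : ℚ) : ℝ) := Rat.cast_lt.2 h6
        push_cast at h8 ⊢
        exact h8

end Pool.Agent.TAvg
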