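import Mathlib
import Pool.Agent.TAvg.Minimax
import Pool.Agent.FewG.Guess

/-!
# A hard distribution on the positive inputs

PACKAGE. Prove `exists_mu` from `minimax_bool` (other package) and `exists_cover` (in
`Pool/Agent/FewG/Guess.lean`), `computes_or` (in `Pool/Agent/FewG/Dual.lean`).

PROOF. Let `X = {u // F u = true}` (nonempty by `hF1`), `𝒢 g` iff there are `h, d` with
`Computes s d 0 h`, `h ≤ F` and `g = h ∘ val`, `f = fun _ => true`. If `HardDist 𝒢 f e`, let `μ u = w u`
if `F u = true` and `0` otherwise. Otherwise `minimax_bool` gives `K > 0` and `g k`, `k : Fin K`, with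
`(e + 1) K ≤ 2 e #{k | g k x = true}`, so `K < 2 #{k | h k u = true}` for all `u` with `F u = true`.
`exists_cover` with `Z = univ` and `k = card κ + 1` gives `T` with at most `card κ + 1` elements such
that no `u` with `F u = true` has `h y u = false` for all `y ∈ T` (as
`2 ^ (card κ + 1) * #... ≤ 2 ^ card κ`). So `F` is the OR of the `h y`, `y ∈ T`, and `computes_or` (with
the maximum of the depths; `Computes.mono`) contradicts `hno`.
-/

set_option autoImplicit false

namespace Pool.Agent.TAvg

open Pool.Agent.FewNeg Pool.Agent.FewG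

private theorem oneSided_sum {α : Type} [Fintype α] (p : α → Prop) [DecidablePred p]
    (w : {u // p u} → ℝ) (A : α → Prop) [DecidablePred A] :
    ∑ u ∈ Finset.univ.filter A, (if hu : p u then w ⟨u, hu⟩ else 0) =
      ∑ x ∈ Finset.univ.filter (fun x : {u // p u} => A x.1), w x := by
  rw [Finset.sum_filter, Finset.sum_filter]
  rw [← Fintype.sum_subtype_add_sum_subtype p]
  have h1 : ∑ i : {x // ¬ p x}, (if A i.1 then (if hu : p i.1 then w ⟨i.1, hu⟩ else 0) else 0)
      = 0 := by
    refine Finset.sum_eq_zero fun i _ => ?_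
    rw [dif_neg i.2, ite_self]
  rw [h1, add_zero]
  refine Finset.sum_congr rfl fun i _ => ?_
  rw [dif_pos i.2]

theorem exists_mu {κ : Type} [Fintype κ] [DecidableEq κ] {F : BF κ} {s e : ℕ} (he : 1 ≤ e)
    (hF1 : F (fun _ => true) = true)
    (hno : ∀ d, ¬ Computes ((Fintype.card κ + 1) * (s + 1)) d 0 F) :
    ∃ μ : (κ → Bool) → ℝ, (∀ u, 0 ≤ μ u) ∧ ∑ u, μ u = 1 ∧ (∀ u, μ u ≠ 0 → F u = true) ∧
      ∀ (h : BF κ) (d : ℕ), Computes s d 0 h → (∀ u, h u = true → F u = true) →
        ∑ u ∈ Finset.univ.filter (fun u => h u = true), μ u ≤ (1 + 1 / (e : ℝ)) / 2 := by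
  classical
  have : Nonempty {u : κ → Bool // F u = true} := ⟨⟨_, hF1⟩⟩
  by_cases hHD : HardDist (X := {u : κ → Bool // F u = true})
      (fun g => ∃ (h : BF κ) (d : ℕ), Computes s d 0 h ∧ (∀ u, h u = true → F u = true) ∧
        g = fun x => h x.1) (fun _ => true) e
  · obtain ⟨w, hw0, hw1, hw⟩ := hHD
    refine ⟨fun u => if hu : F u = true then w ⟨u, hu⟩ else 0, ?_, ?_, ?_, ?_⟩
    · intro u
      dsimp only
      split_ifs
      · exact hw0 _
      · exact le_rfl
    · have := oneSided_sum (fun u => F u = true) w (fun _ => True)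
      simp only [Finset.filter_true] at this
      rw [← hw1]
      exact this
    · intro u hu
      by_contra h
      exact hu (dif_neg h)
    · intro h d hc hle
      have h1 := hw (fun x => h x.1) ⟨h, d, hc, hle, rfl⟩
      have h2 := oneSided_sum (fun u => F u = true) w (fun u => h u = true)
      rw [h2]
      exact h1.le
  · obtain ⟨K, g, hK, hg, hall⟩ := minimax_bool _ _ he hHD
    choose h d hc hle hgh using hg
    have hmore : ∀ u, F u = true → (Finset.univ : Finset (Fin K)).card <
        2 * ((Finset.univ : Finset (Fin K)).filter (fun y => h y u = true)).card := by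
      intro u hu
      have h1 := hall ⟨u, hu⟩
      have h2 : ((Finset.univ : Finset (Fin K)).filter fun k => g k ⟨u, hu⟩ = true) =
          (Finset.univ : Finset (Fin K)).filter (fun y => h y u = true) := by
        refine Finset.filter_congr fun k _ => ?_
        rw [hgh k]
      rw [h2] at h1
      rw [Finset.card_univ, Fintype.card_fin]
      by_contra hcon
      push Not at hcon
      have h3 : 2 * e * ((Finset.univ : Finset (Fin K)).filter
          (fun y => h y u = true)).card ≤ e * K := by
        calc _ = e * (2 * ((Finset.univ : Finset (Fin K)).filter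
          (fun y => h y u = true)).card) := by ring
          _ ≤ e * K := Nat.mul_le_mul_left _ hcon
      nlinarith
    obtain ⟨T, _, g2, g3⟩ := exists_cover (Finset.univ : Finset (Fin K)) h F hmore
      (Fintype.card κ + 1)
    exfalso
    have g3' : 2 ^ (Fintype.card κ + 1) * ((Finset.univ : Finset (κ → Bool)).filter
        (fun u => F u = true ∧ ∀ y ∈ T, h y u = false)).card ≤ 2 ^ Fintype.card κ := by
      convert g3
    have h4 : ((Finset.univ : Finset (κ → Bool)).filter
        (fun u => F u = true ∧ ∀ y ∈ T, h y u = false)).card = 0 := by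
      by_contra hne
      have h5 := Nat.one_le_iff_ne_zero.2 hne
      have h6 : 2 ^ (Fintype.card κ + 1) * 1 ≤ 2 ^ Fintype.card κ :=
        (Nat.mul_le_mul_left _ h5).trans g3'
      rw [pow_succ] at h6
      have : 0 < 2 ^ Fintype.card κ := by positivity
      omega
    rw [Finset.card_eq_zero, Finset.filter_eq_empty_iff] at h4
    have h5 := computes_or (F := F) (s := s) (d := T.sup d) (h := h) T
      (fun y hy => (hc y).mono le_rfl (Finset.le_sup hy) le_rfl) ?_
    · exact hno _ (h5.mono (Nat.mul_le_mul_right _ g2) le_rfl le_rfl)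
    · intro u
      constructor
      · intro hu
        by_contra hcon
        push Not at hcon
        refine h4 (Finset.mem_univ u) ⟨hu, fun y hy => ?_⟩
        have := hcon y hy
        simpa using this
      · rintro ⟨y, _, hy⟩
        exact hle y u hy

end Pool.Agent.TAvg
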