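import Mathlib
import Pool.Agent.FewNeg.Defs

/-!
# Products of hard distributions

PACKAGE. Prove `prod_bound` (helper lemmas allowed, keep the statement).

PROOF. `W v = ∏ b, μ (v b)`. (1) RESAMPLING: for every `a` and every `g`,
`∑ v, W v * g v = ∑ v, W v * ∑ u, μ u * g (Function.update v a u)` (since `∑ μ = 1`; split the
coordinate `a` off, for instance with `Equiv.piSplitAt` or `Fintype.prod_update`-like lemmas, or by
exchanging the names of `v a` and `u`). (2) For `B' ⊆ B` let `ψ B' v = φ` of the input
`fun p => if p.1 ∈ B' then v p.1 p.2 else true`. CLAIM: `∑ v, W v * (if ψ B' v then 1 else 0) ≤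
ρ ^ B'.card`. Induction on `B'`. Empty: `∑ v, W v = 1` (`Finset.prod_univ_sum`). Step
`insert a B'`: `ψ (insert a B') v` implies `ψ B' v` (`φ` is monotone), and `ψ B' v` does not depend on
`v a`. For fixed `v` with `ψ B' v = true` the function `h u = ψ (insert a B') (update v a u)` is
`fun u => φ (fun p => if p.1 = a then u p.2 else x p)` for the input `x p = if p.1 ∈ B' then v p.1 p.2
else true`, so by `hφ` (with `a ∈ B`) the sum of `μ u` over `h u = true` is at most `ρ`; and if
`ψ B' v = false` then `h u = false` for all `u`. With (1): the sum for `insert a B'` is at most `ρ` times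
the sum for `B'`. (3) `φ` at `fun p => v p.1 p.2` is at most `ψ B v` (monotone). So the claim for
`B' = B` gives the theorem.
-/

set_option autoImplicit false

namespace Pool.Agent.TAvg

open Pool.Agent.FewNeg

private theorem prod_weight_swap {U : Type} [Fintype U] {N : ℕ} (μ : U → ℝ) (a : Fin N)
    (v : Fin N → U) (u : U) :
    (∏ b, μ (Function.update v a u b)) * μ (v a) = (∏ b, μ (v b)) * μ u := by
  rw [← Finset.mul_prod_erase Finset.univ (fun b => μ (v b)) (Finset.mem_univ a),
    ← Finset.mul_prod_erase Finset.univ (fun b => μ (Function.update v a u b))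
      (Finset.mem_univ a)]
  have h : ∏ b ∈ Finset.univ.erase a, μ (Function.update v a u b) =
      ∏ b ∈ Finset.univ.erase a, μ (v b) := by
    refine Finset.prod_congr rfl fun b hb => ?_
    rw [Function.update_of_ne (Finset.ne_of_mem_erase hb)]
  rw [h, Function.update_self]
  ring

/-- Resampling of one coordinate. -/
private theorem prod_resample {U : Type} [Fintype U] {N : ℕ} {μ : U → ℝ} (hμ1 : ∑ u, μ u = 1)
    (a : Fin N) (g : (Fin N → U) → ℝ) :
    ∑ v, (∏ b, μ (v b)) * g v =
      ∑ v, (∏ b, μ (v b)) * ∑ u, μ u * g (Function.update v a u) := by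
  let σ : (Fin N → U) × U ≃ (Fin N → U) × U :=
    { toFun := fun p => (Function.update p.1 a p.2, p.1 a)
      invFun := fun p => (Function.update p.1 a p.2, p.1 a)
      left_inv := fun p => by
        simp [Function.update_idem, Function.update_eq_self]
      right_inv := fun p => by
        simp [Function.update_idem, Function.update_eq_self] }
  calc ∑ v, (∏ b, μ (v b)) * g v
      = ∑ v, ∑ u, (∏ b, μ (v b)) * μ u * g v := by
        refine Finset.sum_congr rfl fun v _ => ?_
        rw [← Finset.sum_mul, ← Finset.mul_sum, hμ1, mul_one]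
    _ = ∑ p : (Fin N → U) × U, (∏ b, μ (p.1 b)) * μ p.2 * g p.1 := by
        rw [Fintype.sum_prod_type]
    _ = ∑ p : (Fin N → U) × U, (∏ b, μ ((σ p).1 b)) * μ (σ p).2 * g (σ p).1 :=
        (Equiv.sum_comp σ fun p : (Fin N → U) × U => (∏ b, μ (p.1 b)) * μ p.2 * g p.1).symm
    _ = ∑ p : (Fin N → U) × U, (∏ b, μ (p.1 b)) * μ p.2 * g (Function.update p.1 a p.2) := by
        refine Finset.sum_congr rfl fun p _ => ?_
        change (∏ b, μ (Function.update p.1 a p.2 b)) * μ (p.1 a) *
          g (Function.update p.1 a p.2) = _
        rw [prod_weight_swap]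
    _ = ∑ v, ∑ u, (∏ b, μ (v b)) * μ u * g (Function.update v a u) := by
        rw [Fintype.sum_prod_type]
    _ = _ := by
        refine Finset.sum_congr rfl fun v _ => ?_
        rw [Finset.mul_sum]
        exact Finset.sum_congr rfl fun u _ => by ring

theorem prod_bound {κ : Type} [Fintype κ] [DecidableEq κ] {N : ℕ} {μ : (κ → Bool) → ℝ}
    (hμ0 : ∀ u, 0 ≤ μ u) (hμ1 : ∑ u, μ u = 1) {ρ : ℝ} (hρ : 0 ≤ ρ) (B : Finset (Fin N))
    {φ : BF (Fin N × κ)} (hmon : Monotone φ)
    (hφ : ∀ a ∈ B, ∀ x : Fin N × κ → Bool,
      ∑ u ∈ Finset.univ.filter (fun u : κ → Bool =>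
        φ (fun p => if p.1 = a then u p.2 else x p) = true), μ u ≤ ρ) :
    ∑ v ∈ Finset.univ.filter (fun v : Fin N → κ → Bool => φ (fun p => v p.1 p.2) = true),
      ∏ b, μ (v b) ≤ ρ ^ B.card := by
  classical
  have hW : ∀ v : Fin N → κ → Bool, 0 ≤ ∏ b, μ (v b) := fun v =>
    Finset.prod_nonneg fun b _ => hμ0 _
  set ψ : Finset (Fin N) → (Fin N → κ → Bool) → Bool :=
    fun B' v => φ fun p => if p.1 ∈ B' then v p.1 p.2 else true with hψ
  have claim : ∀ B' : Finset (Fin N), B' ⊆ B →
      ∑ v, (∏ b, μ (v b)) * (if ψ B' v = true then (1 : ℝ) else 0) ≤ ρ ^ B'.card := by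
    intro B'
    induction B' using Finset.induction_on with
    | empty =>
      intro _
      have h1 : ∑ v : Fin N → κ → Bool, ∏ b, μ (v b) = 1 := by
        have h := Finset.prod_univ_sum (fun _ : Fin N => (Finset.univ : Finset (κ → Bool)))
          (fun _ u => μ u)
        rw [Fintype.piFinset_univ] at h
        rw [← h]
        simp [hμ1]
      rw [Finset.card_empty, pow_zero]
      refine (Finset.sum_le_sum fun v _ => ?_).trans h1.le
      split_ifs
      · rw [mul_one]
      · rw [mul_zero]
        exact hW v
    | insert a B' ha ih =>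
      intro hB
      have haB : a ∈ B := hB (Finset.mem_insert_self a B')
      have ih' := ih ((Finset.subset_insert a B').trans hB)
      rw [prod_resample hμ1 a, Finset.card_insert_of_notMem ha, pow_succ, mul_comm (ρ ^ _) ρ]
      refine le_trans ?_ (mul_le_mul_of_nonneg_left ih' hρ)
      rw [Finset.mul_sum]
      refine Finset.sum_le_sum fun v _ => ?_
      rw [mul_left_comm]
      refine mul_le_mul_of_nonneg_left ?_ (hW v)
      have hup : ∀ u : κ → Bool, ψ (insert a B') (Function.update v a u) =
          φ (fun p => if p.1 = a then u p.2 else if p.1 ∈ B' then v p.1 p.2 else true) := by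
        intro u
        rw [hψ]
        simp only
        congr 1
        funext p
        by_cases h1 : p.1 = a
        · rw [if_pos h1, if_pos (by rw [h1]; exact Finset.mem_insert_self a B'), h1,
            Function.update_self]
        · rw [if_neg h1, Function.update_of_ne h1]
          have h2 : p.1 ∈ insert a B' ↔ p.1 ∈ B' := by
            rw [Finset.mem_insert]
            exact or_iff_right h1
          simp only [h2]
      by_cases hv : ψ B' v = true
      · rw [if_pos hv, mul_one]
        have h := hφ a haB (fun p => if p.1 ∈ B' then v p.1 p.2 else true)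
        rw [Finset.sum_filter] at h
        refine le_trans (le_of_eq ?_) h
        refine Finset.sum_congr rfl fun u _ => ?_
        rw [hup u]
        split_ifs
        · rw [mul_one]
        · rw [mul_zero]
      · rw [if_neg hv, mul_zero]
        refine le_of_eq (Finset.sum_eq_zero fun u _ => ?_)
        have h3 : ψ (insert a B') (Function.update v a u) ≤ ψ B' v := by
          rw [hup u]
          refine hmon fun p => ?_
          by_cases h1 : p.1 = a
          · simp only
            rw [if_pos h1, if_neg (by rw [h1]; exact ha)]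
            exact Bool.le_true _
          · simp only
            rw [if_neg h1]
        rw [Bool.not_eq_true] at hv
        rw [hv] at h3
        have h4 : ψ (insert a B') (Function.update v a u) = false := Bool.eq_false_of_le_false h3
        rw [h4]
        simp
  refine le_trans ?_ (claim B (Finset.Subset.refl B))
  rw [Finset.sum_filter]
  refine Finset.sum_le_sum fun v _ => ?_
  by_cases h1 : φ (fun p => v p.1 p.2) = true
  · have h2 : φ (fun p => v p.1 p.2) ≤ ψ B v := by
      refine hmon fun p => ?_
      simp only
      split_ifs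
      · exact le_rfl
      · exact Bool.le_true _
    rw [h1] at h2
    have h3 : ψ B v = true := Bool.eq_true_of_true_le h2
    rw [if_pos h1, if_pos h3, mul_one]
  · rw [if_neg h1]
    refine mul_nonneg (hW v) ?_
    split_ifs <;> norm_num

end Pool.Agent.TAvg
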