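import Mathlib
import Pool.Agent.TAvg.GuessDefs
import Pool.Agent.TAvg.OneSided
import Pool.Agent.TAvg.Prod
import Pool.Agent.FewG.Final

/-!
# Hard distributions for nondeterministic circuits

PACKAGE. Prove `co_hard` from `exists_mu`, `prod_bound` (other packages), `NSLP.toSLP` and
`NSLP.mono` (`Pool/Agent/FewG/Main.lean`), `Computes.dual`, `slice_coL`, `coL_monotone`. Follow the
proofs of `NDecides.lower` in `Pool/Agent/FewG/Main.lean` and of `coL_lower` in
`Pool/Agent/FewG/Final.lean`.

PROOF. Let `F' = dual F`; `F'` of ones is `true`, `F'` has no circuits with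
`(card κ + 1) * (s + 1)` gates (`Computes.dual`, `dual_dual`). Take `μ` from `exists_mu` for `F'`.
`σ' = flipS σ` (so `σ' i = inr true` for `i ∈ S`), `enc v i = Sum.elim v id (σ' i)` for
`v : Fin N × κ → Bool`. As in `coL_lower`: `slice (coL L) n (enc v) = true` iff
`F' (fun i => v (b, i)) = true` for all `b ∈ B`. For `v : Fin N → κ → Bool` let `W v = ∏ b, μ (v b)`,
`D x = ∑ v, if enc (fun p => v p.1 p.2) = x then W v else 0`. `D ≥ 0`, `∑ D = ∑ W = 1`; if `D x ≠ 0` then
`x = enc v` with `W v ≠ 0`, so all `μ (v b) ≠ 0`, and `slice (coL L) n x = true`.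
Let `C` be given. For `y : Fin g → Bool` and a set `B₀` disjoint from `S` let
`φ v = C (fun i => Sum.elim v id (σ' i) && !(decide (i ∈ B₀))) (fun i => decide (i ∈ B₀)) y`, which is
in `Computes s d 0` (`NSLP.toSLP`). SOUND: if `φ v = true` then with
`x' i = enc v i && !(decide (i ∈ B₀))` we have `C x' (fun i => !(x' i)) y = true` (`NSLP.mono` in the
negated variables), so `slice (coL L) n x' = true`, so `slice (coL L) n (enc v) = true` (monotone), so
`F'` is `true` on all blocks `b ∈ B`. Hence for `a ∈ B` and fixed `x` the function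
`u ↦ φ (fun p => if p.1 = a then u p.2 else x p)` is below `F'` and has the same circuits
(`Computes.subst`), and `exists_mu` gives the hypothesis of `prod_bound` with `ρ = (1 + 1 / e) / 2`.
COMPLETE: if `NAcc w C (enc v)` with `y`, `B₁`, let `B₀` be the set of the `i ∈ B₁ \ S` with
`enc v i = false`. Then `φ v = true` for `y`, `B₀` (for `i ∈ S` `enc v i = true`). As in
`NDecides.lower` the sets with at most `w` elements disjoint from `S` are parametrised by
`Fin w → Option (Fin n)`, `(n + 1) ^ w` possibilities. So `∑ D x` over the `x` with `NAcc w C x` is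
at most `∑ (y, B₀), ∑ (v : φ v = true), W v ≤ 2 ^ g * (n + 1) ^ w * ρ ^ B.card`.
-/

set_option autoImplicit false

namespace Pool.Agent.TAvg

open Pool.Agent.FewNeg Pool.Agent.FewG

/-- the weight of a tuple of blocks -/
private theorem sum_W {κ : Type} [Fintype κ] [DecidableEq κ] {N : ℕ} {μ : (κ → Bool) → ℝ}
    (hμ1 : ∑ u, μ u = 1) : ∑ v : Fin N → κ → Bool, ∏ b, μ (v b) = 1 := by
  have h := Finset.prod_univ_sum (fun _ : Fin N => (Finset.univ : Finset (κ → Bool)))
    (fun _ u => μ u)
  rw [Fintype.piFinset_univ] at h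
  rw [← h]
  simp [hμ1]

private theorem flip_sum {n N : ℕ} {κ : Type} (σ : Fin n → (Fin N × κ) ⊕ Bool)
    (v : Fin N × κ → Bool) :
    (fun i => !(Sum.elim v id (flipS σ i))) = fun p => Sum.elim (fun q => !(v q)) id (σ p) := by
  funext p
  unfold flipS
  rcases σ p with q | b
  · rfl
  · simp

/-- the sets of at most `w` elements are parametrised -/
private theorem exists_param {n w : ℕ} (S B : Finset (Fin n)) (hBw : B.card ≤ w)
    (hBS : ∀ i ∈ B, i ∉ S) : ∃ u : Fin w → Option (Fin n),
    (Finset.univ.filter fun i => ∃ k, u k = some i) \ S = B := by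
  classical
  obtain ⟨l, hl, hlB⟩ : ∃ l : List (Fin n), l.length ≤ w ∧ ∀ i, i ∈ l ↔ i ∈ B :=
    ⟨B.toList, by simpa using hBw, fun i => Finset.mem_toList⟩
  refine ⟨fun k => l[k.val]?, ?_⟩
  ext i
  simp only [Finset.mem_sdiff, Finset.mem_filter, Finset.mem_univ, true_and]
  constructor
  · rintro ⟨⟨k, hk⟩, -⟩
    exact (hlB i).1 (List.mem_of_getElem? hk)
  · intro hi
    refine ⟨?_, hBS i hi⟩
    obtain ⟨k, hk, hk'⟩ := List.mem_iff_getElem.1 ((hlB i).2 hi)
    exact ⟨⟨k, by omega⟩, by
      simp only
      rw [List.getElem?_eq_getElem hk, hk']⟩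

/-- completeness: an accepted input is accepted by one of the functions -/
private theorem acc_exists {n g w : ℕ} {κ : Type} {S : Finset (Fin n)} {σ : Fin n → κ ⊕ Bool}
    (hσ : ∀ i ∈ S, σ i = Sum.inr true) (C : NF (Fin n) (Fin g → Bool)) (v : κ → Bool)
    (h : NAcc w C (fun i => Sum.elim v id (σ i))) :
    ∃ (u : Fin w → Option (Fin n)) (y : Fin g → Bool),
      C (fun i => Sum.elim v id (σ i) &&
          !(decide (i ∈ (Finset.univ.filter fun i => ∃ k, u k = some i) \ S)))
        (fun i => decide (i ∈ (Finset.univ.filter fun i => ∃ k, u k = some i) \ S)) y = true := by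
  classical
  obtain ⟨y, B, hBw, h7⟩ := h
  set B' := B.filter (fun i => Sum.elim v id (σ i) = false) with hB'
  have hB'S : ∀ i ∈ B', i ∉ S := by
    intro i hi hiS
    rw [hB', Finset.mem_filter, hσ i hiS] at hi
    exact Bool.noConfusion hi.2
  obtain ⟨u, hu⟩ := exists_param S B' ((Finset.card_filter_le _ _).trans hBw) hB'S
  refine ⟨u, y, ?_⟩
  rw [hu]
  have e1 : (fun i => Sum.elim v id (σ i) && !(decide (i ∈ B'))) =
      fun i => Sum.elim v id (σ i) := by
    funext i
    by_cases hi : i ∈ B'
    · rw [hB', Finset.mem_filter] at hi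
      rw [hi.2]
      rfl
    · simp [hi]
  have e2 : (fun i => decide (i ∈ B')) = fun i => decide (i ∈ B) && !(Sum.elim v id (σ i)) := by
    funext i
    by_cases hi : i ∈ B
    · cases hc : (Sum.elim v id (σ i) : Bool)
      · simp [hB', hi, hc]
      · simp [hB', hc]
    · simp [hB', hi]
  rw [e1, e2]
  exact h7

/-- soundness -/
private theorem sound_le {n g s' d' : ℕ} {κ : Type} {S : Finset (Fin n)} {σ : Fin n → κ ⊕ Bool}
    {f : BF (Fin n)} (hmon : Monotone f) {L : List (NF (Fin n) (Fin g → Bool) × ℕ)}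
    (h1 : NSLP S L s') {C : NF (Fin n) (Fin g → Bool)} (h2 : (C, d') ∈ L)
    (h5 : NSound f C) (B : Finset (Fin n)) (y : Fin g → Bool) (v : κ → Bool)
    (hv : C (fun i => Sum.elim v id (σ i) && !(decide (i ∈ B)))
      (fun i => decide (i ∈ B)) y = true) : f (fun i => Sum.elim v id (σ i)) = true := by
  have h7 : C (fun i => Sum.elim v id (σ i) && !(decide (i ∈ B)))
      (fun i => !(Sum.elim v id (σ i) && !(decide (i ∈ B)))) y = true := by
    have h8 := h1.mono _ h2 (fun i => Sum.elim v id (σ i) && !(decide (i ∈ B)))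
      (fun i => decide (i ∈ B))
      (fun i => !(Sum.elim v id (σ i) && !(decide (i ∈ B)))) y (by
        intro i
        by_cases hi : i ∈ B
        · simp [hi]
        · simp only [hi, decide_false]
          exact Bool.false_le _)
    simp only at h8
    rw [hv] at h8
    exact Bool.eq_true_of_true_le h8
  have h8 := h5 _ _ h7
  have h9 := hmon (fun i => by
    by_cases hi : i ∈ B
    · simp [hi]
    · simp [hi] : (fun i => Sum.elim v id (σ i) && !(decide (i ∈ B))) ≤
    fun i => Sum.elim v id (σ i))
  rw [h8] at h9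
  exact Bool.eq_true_of_true_le h9

open Classical in
theorem co_hard {κ : Type} [Fintype κ] [DecidableEq κ] {L : Set (List Bool)} {n N : ℕ}
    (hmon : Monotone (slice L n)) {F : BF κ} (hF0 : F (fun _ => false) = false)
    {S : Finset (Fin n)} {B : Finset (Fin N)} {σ : Fin n → (Fin N × κ) ⊕ Bool}
    (hσ : ∀ p ∈ S, σ p = Sum.inr false)
    (hL : ∀ y : Fin N × κ → Bool, slice L n (fun p => Sum.elim y id (σ p)) = orC B F y)
    {s e : ℕ} (he : 1 ≤ e) (hno : ∀ d, ¬ Computes ((Fintype.card κ + 1) * (s + 1)) d 0 F) :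
    ∃ D : (Fin n → Bool) → ℝ, (∀ x, 0 ≤ D x) ∧ ∑ x, D x = 1 ∧
      (∀ x, D x ≠ 0 → slice (coL L) n x = true) ∧
      ∀ (g w : ℕ) (C : NF (Fin n) (Fin g → Bool)), NSize S s C → NSound (slice (coL L) n) C →
        ∑ x ∈ Finset.univ.filter (fun x => NAcc w C x), D x ≤
          (n + 1) ^ w * 2 ^ g * ((1 + 1 / (e : ℝ)) / 2) ^ B.card := by
  have hF1 : dual F (fun _ => true) = true := by
    simp [dual, hF0]
  have hno' : ∀ d, ¬ Computes ((Fintype.card κ + 1) * (s + 1)) d 0 (dual F) := by
    intro d h
    have h2 := Computes.dual h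
    rw [dual_dual] at h2
    exact hno d h2
  obtain ⟨μ, hμ0, hμ1, hμF, hμh⟩ := exists_mu he hF1 hno'
  have hσ' : ∀ i ∈ S, flipS σ i = Sum.inr true := fun i hi => by
    unfold flipS
    rw [hσ i hi]
    rfl
  have hsl : ∀ v : Fin N × κ → Bool, slice (coL L) n (fun i => Sum.elim v id (flipS σ i)) = true ↔
      ∀ a ∈ B, dual F (fun i => v (a, i)) = true := by
    intro v
    rw [slice_coL, flip_sum, hL]
    simp [orC, dual]
  set enc : (Fin N → κ → Bool) → Fin n → Bool :=
    fun v i => Sum.elim (fun p : Fin N × κ => v p.1 p.2) id (flipS σ i) with henc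
  set W : (Fin N → κ → Bool) → ℝ := fun v => ∏ b, μ (v b) with hW
  have hW0 : ∀ v, 0 ≤ W v := fun v => Finset.prod_nonneg fun b _ => hμ0 _
  have hW1 : ∑ v, W v = 1 := sum_W hμ1
  refine ⟨fun x => ∑ v, if enc v = x then W v else 0, ?_, ?_, ?_, ?_⟩
  · intro x
    refine Finset.sum_nonneg fun v _ => ?_
    split_ifs
    · exact hW0 v
    · exact le_rfl
  · rw [Finset.sum_comm]
    simp only [Finset.sum_ite_eq, Finset.mem_univ, if_true]
    exact hW1
  · intro x hx
    obtain ⟨v, -, hv⟩ := Finset.exists_ne_zero_of_sum_ne_zero hx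
    have hvx : enc v = x := by
      by_contra hne
      exact hv (if_neg hne)
    rw [if_pos hvx] at hv
    rw [← hvx, henc, hsl]
    intro a _
    refine hμF _ fun h0 => hv ?_
    exact Finset.prod_eq_zero (Finset.mem_univ a) h0
  · rintro g w C ⟨Ls, s', d', h1, h2, h3⟩ h5
    set Q := (Fin w → Option (Fin n)) × (Fin g → Bool) with hQ
    set Bs : Q → Finset (Fin n) := fun q =>
      (Finset.univ.filter fun i => ∃ k, q.1 k = some i) \ S with hBs
    set φ : Q → BF (Fin N × κ) := fun q v =>
      C (fun i => Sum.elim v id (flipS σ i) && !(decide (i ∈ Bs q)))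
        (fun i => decide (i ∈ Bs q)) q.2 with hφ
    have hcomp : ∀ q, Computes s d' 0 (φ q) := by
      intro q
      refine ⟨_, s', d', 0, h1.toSLP (flipS σ) hσ' (Bs q)
        (fun i hi => (Finset.mem_sdiff.1 hi).2) q.2, ?_, h3, le_rfl, le_rfl⟩
      exact List.mem_map.2 ⟨_, h2, rfl⟩
    have hmonφ : ∀ q, Monotone (φ q) := by
      intro q
      obtain ⟨L1, s1, d1, t1, g1, g2, g3, g4, g5⟩ := hcomp q
      exact g1.monotone (by omega) _ g2
    have hsound : ∀ q v, φ q v = true → ∀ a ∈ B, dual F (fun i => v (a, i)) = true := by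
      intro q v hv
      rw [← hsl]
      exact sound_le (coL_monotone hmon) h1 h2 h5 (Bs q) q.2 v hv
    have hbound : ∀ q, ∑ v ∈ Finset.univ.filter
        (fun v : Fin N → κ → Bool => φ q (fun p => v p.1 p.2) = true), W v ≤
        ((1 + 1 / (e : ℝ)) / 2) ^ B.card := by
      intro q
      refine prod_bound hμ0 hμ1 (by positivity) B (hmonφ q) fun a ha x => ?_
      refine hμh (fun u => φ q (fun p => if p.1 = a then u p.2 else x p)) d' ?_ ?_
      · refine (hcomp q).subst
          (fun p => if p.1 = a then Sum.inl p.2 else Sum.inr (x p)) fun u => ?_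
        congr 1
        funext p
        split_ifs <;> rfl
      · intro u hu
        have h7 := hsound q _ hu a ha
        simpa using h7
    have hcard : ((Finset.univ : Finset Q).card : ℝ) = (n + 1) ^ w * 2 ^ g := by
      have h9 : Fintype.card ((Fin w → Option (Fin n)) × (Fin g → Bool)) =
          (n + 1) ^ w * 2 ^ g := by
        rw [Fintype.card_prod, Fintype.card_fun, Fintype.card_fun,
          Fintype.card_option, Fintype.card_fin, Fintype.card_bool, Fintype.card_fin,
          Fintype.card_fin]
      rw [Finset.card_univ]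
      change ((Fintype.card ((Fin w → Option (Fin n)) × (Fin g → Bool)) : ℕ) : ℝ) = _
      rw [h9]
      push_cast
      ring
    calc ∑ x ∈ Finset.univ.filter (fun x => NAcc w C x), ∑ v, (if enc v = x then W v else 0)
        = ∑ v, ∑ x ∈ Finset.univ.filter (fun x => NAcc w C x), (if enc v = x then W v else 0) :=
          Finset.sum_comm
      _ ≤ ∑ v, ∑ q : Q, (if φ q (fun p => v p.1 p.2) = true then W v else 0) := by
          refine Finset.sum_le_sum fun v _ => ?_
          rw [Finset.sum_ite_eq]
          split_ifs with hv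
          · have hv' : NAcc w C (fun i => Sum.elim (fun p : Fin N × κ => v p.1 p.2) id
              (flipS σ i)) := (Finset.mem_filter.1 hv).2
            obtain ⟨u, y, huy⟩ := acc_exists hσ' C (fun p : Fin N × κ => v p.1 p.2) hv'
            have h8 : φ (u, y) (fun p => v p.1 p.2) = true := huy
            calc W v = if φ (u, y) (fun p => v p.1 p.2) = true then W v else 0 := by
                  rw [if_pos h8]
              _ ≤ _ := Finset.single_le_sum
                  (f := fun q : Q => if φ q (fun p => v p.1 p.2) = true then W v else 0)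
                  (fun q _ => by
                    show 0 ≤ if φ q (fun p => v p.1 p.2) = true then W v else 0
                    split_ifs
                    · exact hW0 v
                    · exact le_rfl) (Finset.mem_univ (u, y))
          · refine Finset.sum_nonneg fun q _ => ?_
            split_ifs
            · exact hW0 v
            · exact le_rfl
      _ = ∑ q : Q, ∑ v ∈ Finset.univ.filter
            (fun v : Fin N → κ → Bool => φ q (fun p => v p.1 p.2) = true), W v := by
          rw [Finset.sum_comm]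
          refine Finset.sum_congr rfl fun q _ => ?_
          rw [Finset.sum_filter]
      _ ≤ ∑ q : Q, ((1 + 1 / (e : ℝ)) / 2) ^ B.card := Finset.sum_le_sum fun q _ => hbound q
      _ = (n + 1) ^ w * 2 ^ g * ((1 + 1 / (e : ℝ)) / 2) ^ B.card := by
          rw [Finset.sum_const, nsmul_eq_mul, hcard]

end Pool.Agent.TAvg
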