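import Mathlib
import Pool.Agent.TAvg.CoHard

/-!
# Languages in POLYLOGSPACE which are hard on average for nondeterministic circuits

PACKAGE. Prove `nltb_avg` from `co_hard` (other package) and `andr_size`. Follow the proof of
`nltb_lower` in `Pool/Agent/FewG/Final.lean` (its private lemmas may be copied).

PROOF. Let `C = (2 (c + 9) + 1) * (4 * 261 ^ 8)`, `A = log s + 1`, `L = log n`, `l = log L`,
`N = n / (C (l + 1) A ^ 8)`, `i = clog (128 A)`. If `N = 0` let `D` be concentrated at the word of ones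
(`slice (coL ..) n` of ones is `true`: `slice_coL`, and `LTB` does not contain the word of zeros), and
the sum is at most `1`. Let `N ≥ 1`. As in `nltb_lower`: `N * (qT i) ^ 2 ≤ n / sT (c + 8) n`,
`i < sT (c + 8) n`, `MS_sub` gives `B`, `σ`, and `andrF (qT i) (aT i)` has no monotone circuit with
`(q * q + 1) (s + 1) < 2 ^ (aT i)` gates (`andr_size`). `co_hard` with `e = N + 1` gives `D`. Finally
`(1 + 1 / (N + 1)) ^ B.card ≤ (1 + 1 / (N + 1)) ^ N ≤ 4` (`B.card ≤ N`; `1 + x ≤ exp x`,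
`exp 1 < 4`), `2 ^ N ≤ 2 ^ B.card * 2 ^ S.card`, `(n + 1) ^ w ≤ 2 ^ (w (L + 1))`.
-/

set_option autoImplicit false

namespace Pool.Agent.TAvg

open Pool.Agent.FewNeg Pool.Agent.FewG

private theorem guessavg_num_i (i : ℕ) (hi : 7 ≤ i) : 8 * i + 6 ≤ 2 ^ (i - 1) := by
  induction i, hi using Nat.le_induction with
  | base => norm_num
  | succ i hi ih =>
    have h1 : 2 ^ (i + 1 - 1) = 2 * 2 ^ (i - 1) := by
      rw [← pow_succ']
      congr 1
      omega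
    rw [h1]
    have h2 : 2 ^ 6 ≤ 2 ^ (i - 1) := Nat.pow_le_pow_right (by norm_num) (by omega)
    omega

private theorem guessavg_num_final (i A s q a : ℕ) (hi7 : 7 ≤ i) (hA : 128 * A ≤ 2 ^ i)
    (hs : s < 2 ^ A) (ha : a = 2 ^ i + 5) (hq : q ≤ 2 * a ^ 4) :
    (q * q + 1) * (s + 1) < 2 ^ a := by
  have hh : 2 ^ i = 2 * 2 ^ (i - 1) := by
    rw [← pow_succ']
    congr 1
    omega
  have e1 : a ≤ 2 ^ (i + 1) := by
    have h7 : 2 ^ 7 ≤ 2 ^ i := Nat.pow_le_pow_right (by norm_num) hi7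
    rw [ha, pow_succ]
    omega
  have e2 : q * q + 1 ≤ 2 ^ (8 * i + 11) := by
    have e3 : q ≤ 2 * (2 ^ (i + 1)) ^ 4 := hq.trans
      (Nat.mul_le_mul_left _ (Nat.pow_le_pow_left e1 4))
    have e4 : 2 * (2 ^ (i + 1)) ^ 4 = 2 ^ (4 * i + 5) := by
      rw [← pow_mul, ← pow_succ']
      congr 1
      ring
    rw [e4] at e3
    calc q * q + 1 ≤ 2 ^ (4 * i + 5) * 2 ^ (4 * i + 5) + 1 :=
          Nat.add_le_add_right (Nat.mul_le_mul e3 e3) 1
      _ = 2 ^ (8 * i + 10) + 1 := by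
        rw [← pow_add]
        congr 2
        ring
      _ ≤ 2 ^ (8 * i + 10) + 2 ^ (8 * i + 10) := Nat.add_le_add_left (Nat.one_le_two_pow) _
      _ = _ := by rw [← Nat.two_mul, ← pow_succ']
  have e6 := guessavg_num_i i hi7
  have h6 : 2 ^ 6 ≤ 2 ^ (i - 1) := Nat.pow_le_pow_right (by norm_num) (by omega)
  have e7 : 8 * i + 11 + A < a := by omega
  have e8 : (q * q + 1) * (s + 1) ≤ 2 ^ (8 * i + 11 + A) := by
    rw [pow_add]
    exact Nat.mul_le_mul e2 hs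
  exact lt_of_le_of_lt e8 (Nat.pow_lt_pow_right (by norm_num) e7)

private theorem guessavg_exp (N b : ℕ) (hb : b ≤ N) :
    (1 + 1 / ((N + 1 : ℕ) : ℝ)) ^ b ≤ 4 := by
  have hpos : (0 : ℝ) < ((N + 1 : ℕ) : ℝ) := by exact_mod_cast Nat.succ_pos N
  have h1 : (1 : ℝ) ≤ 1 + 1 / ((N + 1 : ℕ) : ℝ) := by
    have : (0 : ℝ) ≤ 1 / ((N + 1 : ℕ) : ℝ) := by positivity
    linarith
  calc (1 + 1 / ((N + 1 : ℕ) : ℝ)) ^ b ≤ (1 + 1 / ((N + 1 : ℕ) : ℝ)) ^ (N + 1) :=
        pow_le_pow_right₀ h1 (by omega)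
    _ ≤ (Real.exp (1 / ((N + 1 : ℕ) : ℝ))) ^ (N + 1) := by
        refine pow_le_pow_left₀ (by linarith) ?_ _
        have := Real.add_one_le_exp (1 / ((N + 1 : ℕ) : ℝ))
        linarith
    _ = Real.exp 1 := by
        rw [← Real.exp_nat_mul]
        congr 1
        field_simp
    _ ≤ 4 := by
        have := Real.exp_one_lt_d9
        linarith

open Classical in
theorem nltb_avg (c : ℕ) : ∃ C : ℕ, 0 < C ∧ ∀ (n : ℕ) (S : Finset (Fin n)) (s : ℕ),
    s ≤ 2 ^ Nat.log 2 n ^ c → ∃ D : (Fin n → Bool) → ℝ, (∀ x, 0 ≤ D x) ∧ ∑ x, D x = 1 ∧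
      (∀ x, D x ≠ 0 → slice (coL (LTB (c + 8))) n x = true) ∧
      ∀ (g w : ℕ) (K : NF (Fin n) (Fin g → Bool)), NSize S s K →
        NSound (slice (coL (LTB (c + 8))) n) K →
        (∑ x ∈ Finset.univ.filter (fun x => NAcc w K x), D x) *
          2 ^ (n / (C * (Nat.log 2 (Nat.log 2 n) + 1) * (Nat.log 2 s + 1) ^ 8)) ≤
            2 ^ (g + w * (Nat.log 2 n + 1) + S.card + 2) := by
  refine ⟨(2 * (c + 9) + 1) * (4 * 261 ^ 8), by positivity, fun n S s hs => ?_⟩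
  set A := Nat.log 2 s + 1 with hA
  set L := Nat.log 2 n with hL
  set l := Nat.log 2 L with hl
  set N := n / ((2 * (c + 9) + 1) * (4 * 261 ^ 8) * (l + 1) * A ^ 8) with hN
  have hcon : (2 * (c + 9) + 1) * (4 * 261 ^ 8) * (l + 1) * A ^ 8 * N ≤ n := Nat.mul_div_le _ _
  have hA1 : 1 ≤ A := by omega
  have h1 : s < 2 ^ A := Nat.lt_pow_succ_log_self (by norm_num) _
  set i := Nat.clog 2 (128 * A) with hi
  have h2 : 128 * A ≤ 2 ^ i := Nat.le_pow_clog (by norm_num) _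
  have h3 : 2 ^ i ≤ 256 * A := by
    have h5 := Nat.pow_pred_clog_lt_self (b := 2) (x := 128 * A) (by norm_num) (by omega)
    rw [Nat.pred_eq_sub_one, ← hi] at h5
    have h6 : 0 < i := by
      rw [hi]
      exact Nat.clog_pos (by norm_num) (by omega)
    have h7 : 2 ^ i = 2 * 2 ^ (i - 1) := by
      rw [← pow_succ', Nat.sub_add_cancel h6]
    omega
  have hi7 : 7 ≤ i := by
    by_contra hlt
    push Not at hlt
    have : 2 ^ i ≤ 2 ^ 6 := Nat.pow_le_pow_right (by norm_num) (by omega)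
    omega
  have h4 : aT i ≤ 261 * A := by unfold aT; omega
  have h5 : qT i ^ 2 ≤ 4 * 261 ^ 8 * A ^ 8 := by
    calc qT i ^ 2 ≤ (2 * aT i ^ 4) ^ 2 := Nat.pow_le_pow_left (qT_le i) 2
      _ ≤ (2 * (261 * A) ^ 4) ^ 2 :=
        Nat.pow_le_pow_left (Nat.mul_le_mul_left _ (Nat.pow_le_pow_left h4 4)) 2
      _ = _ := by ring
  have hS : sT (c + 8) n ≤ (2 * (c + 9) + 1) * (l + 1) := by
    unfold sT
    rw [← hL, ← hl]
    nlinarith
  have h6 : sT (c + 8) n * (N * (4 * 261 ^ 8 * A ^ 8)) ≤ n := by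
    calc sT (c + 8) n * (N * (4 * 261 ^ 8 * A ^ 8)) ≤
        (2 * (c + 9) + 1) * (l + 1) * (N * (4 * 261 ^ 8 * A ^ 8)) :=
          Nat.mul_le_mul_right _ hS
      _ = (2 * (c + 9) + 1) * (4 * 261 ^ 8) * (l + 1) * A ^ 8 * N := by ring
      _ ≤ n := hcon
  have hSpos : 0 < sT (c + 8) n := Nat.succ_pos _
  have h7 : N * (4 * 261 ^ 8 * A ^ 8) ≤ n / sT (c + 8) n :=
    (Nat.le_div_iff_mul_le hSpos).2 (by rw [mul_comm]; exact h6)
  have h8 : N * qT i ^ 2 ≤ n / sT (c + 8) n := (Nat.mul_le_mul_left _ h5).trans h7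
  have hiS : i < sT (c + 8) n := by
    have h9 : A ≤ (L + 2) ^ (c + 1) := by
      have h10 : Nat.log 2 s ≤ L ^ c := by
        calc Nat.log 2 s ≤ Nat.log 2 (2 ^ L ^ c) := Nat.log_mono_right hs
          _ = L ^ c := Nat.log_pow (by norm_num) _
      have h12 : L ^ c ≤ (L + 2) ^ c := Nat.pow_le_pow_left (by omega) c
      have h13 : 1 ≤ (L + 2) ^ c := Nat.one_le_pow _ _ (by omega)
      have h14 : (L + 2) ^ (c + 1) = (L + 2) ^ c * (L + 1) + (L + 2) ^ c := by ring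
      have h15 : L + 1 ≤ (L + 2) ^ c * (L + 1) := Nat.le_mul_of_pos_left _ h13
      omega
    have h10 : L + 2 ≤ 2 ^ (l + 2) := by
      have e1 : L < 2 ^ (l + 1) := Nat.lt_pow_succ_log_self (by norm_num) _
      have e2 : 2 ^ (l + 2) = 2 * 2 ^ (l + 1) := by rw [pow_succ 2 (l + 1)]; ring
      have e3 : 2 ≤ 2 ^ (l + 1) := by
        calc 2 = 2 ^ 1 := by norm_num
          _ ≤ _ := Nat.pow_le_pow_right (by norm_num) (by omega)
      omega
    have h11 : 128 * A ≤ 2 ^ (7 + (c + 1) * (l + 2)) := by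
      rw [pow_add]
      refine Nat.mul_le_mul (by norm_num) ?_
      calc A ≤ (L + 2) ^ (c + 1) := h9
        _ ≤ (2 ^ (l + 2)) ^ (c + 1) := Nat.pow_le_pow_left h10 _
        _ = _ := by rw [← pow_mul, mul_comm]
    have h12 : i ≤ 7 + (c + 1) * (l + 2) := (Nat.clog_le_iff_le_pow (by norm_num)).2 h11
    unfold sT
    rw [← hL, ← hl]
    have h13 : (c + 8 + 1) * (l + 2) = (c + 1) * (l + 2) + 8 * (l + 2) := by ring
    omega
  have hq : (qT i).Prime := qT_prime i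
  obtain ⟨B, σ, g1, g2, -, g4⟩ := MS_sub (S := sT (c + 8)) (K := fun _ i => qT i ^ 2)
    (G := fun _ i => GB i) hiS (posB_inj (qT i)) (posB_lt (qT i)) (andrF_zero hq.pos)
    (fun i' _ => Nat.pow_pos (qT_prime i').pos) (fun i' _ y hy => by
      unfold GB
      have e : (fun p => y (posB (qT i') p)) = fun _ => false := by
        funext p
        exact hy _ (posB_lt (qT i') p)
      rw [e]
      exact andrF_zero (qT_prime i').pos) (fun y => rfl) S (N := N) h8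
  have hno : ∀ d, ¬ Computes ((Fintype.card (Fin (qT i) × Fin (qT i)) + 1) * (s + 1)) d 0
      (andrF (qT i) (aT i)) := by
    intro d hF
    rw [Fintype.card_prod, Fintype.card_fin] at hF
    have h9 := andr_size (aT i) (qT i) _ _ (by unfold aT; omega) hq (lt_qT i) (qT_le i) hF
    have h10 := guessavg_num_final i A s (qT i) (aT i) hi7 h2 h1 rfl (qT_le i)
    omega
  obtain ⟨D, d1, d2, d3, d4⟩ := co_hard (LTB_monotone (c + 8) n) (andrF_zero hq.pos) g2 g4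
    (s := s) (e := N + 1) (Nat.le_add_left 1 N) hno
  refine ⟨D, d1, d2, d3, fun g w K hK hKs => ?_⟩
  have h9 := d4 g w K hK hKs
  have hBN : B.card ≤ N := by simpa using Finset.card_le_univ B
  have h10 := guessavg_exp N B.card hBN
  have h11 : ((n : ℝ) + 1) ^ w ≤ 2 ^ (w * (L + 1)) := by
    have e1 : n + 1 ≤ 2 ^ (L + 1) := Nat.lt_pow_succ_log_self (by norm_num) _
    have e2 : ((n : ℝ) + 1) ≤ 2 ^ (L + 1) := by exact_mod_cast e1
    calc ((n : ℝ) + 1) ^ w ≤ (2 ^ (L + 1)) ^ w := pow_le_pow_left₀ (by positivity) e2 w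
      _ = 2 ^ (w * (L + 1)) := by rw [← pow_mul, mul_comm w]
  have h12 : (2 : ℝ) ^ N ≤ 2 ^ B.card * 2 ^ S.card := by
    rw [← pow_add]
    exact pow_le_pow_right₀ (by norm_num) g1
  have h13 : ((1 + 1 / ((N + 1 : ℕ) : ℝ)) / 2) ^ B.card * 2 ^ N ≤ 4 * 2 ^ S.card := by
    rw [div_pow]
    have hp : (0 : ℝ) < 2 ^ B.card := by positivity
    have hx : (0 : ℝ) ≤ (1 + 1 / ((N + 1 : ℕ) : ℝ)) ^ B.card := by positivity
    calc (1 + 1 / ((N + 1 : ℕ) : ℝ)) ^ B.card / 2 ^ B.card * 2 ^ N ≤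
        (1 + 1 / ((N + 1 : ℕ) : ℝ)) ^ B.card / 2 ^ B.card * (2 ^ B.card * 2 ^ S.card) :=
          mul_le_mul_of_nonneg_left h12 (by positivity)
      _ = (1 + 1 / ((N + 1 : ℕ) : ℝ)) ^ B.card * 2 ^ S.card := by
        field_simp
      _ ≤ 4 * 2 ^ S.card := mul_le_mul_of_nonneg_right h10 (by positivity)
  calc (∑ x ∈ Finset.univ.filter (fun x => NAcc w K x), D x) * 2 ^ N ≤
      ((n + 1) ^ w * 2 ^ g * ((1 + 1 / ((N + 1 : ℕ) : ℝ)) / 2) ^ B.card) * 2 ^ N :=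
        mul_le_mul_of_nonneg_right h9 (by positivity)
    _ = ((n + 1) ^ w * 2 ^ g) * (((1 + 1 / ((N + 1 : ℕ) : ℝ)) / 2) ^ B.card * 2 ^ N) := by
        ring
    _ ≤ (2 ^ (w * (L + 1)) * 2 ^ g) * (4 * 2 ^ S.card) := by
        gcongr
    _ = 2 ^ (g + w * (L + 1) + S.card + 2) := by
        rw [pow_add, pow_add, pow_add]
        ring

end Pool.Agent.TAvg
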