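import Mathlib
import Pool.Agent.TOpt.SPGame

/-!
# Elimination of the messages, randomised version

PACKAGE. Prove `rand_of_copies` (helper lemmas allowed, keep the statement). The proof is a variation
of `gmono_of_copies` in `Pool/Agent/TOpt/SPGame.lean`; the lemmas `guses_rank_lt`, `guses_rank_step`,
`guses_zeros_length`, `guses_zeros_mem`, `guses_same_of_zeros` there hold for an arbitrary class `𝒜`
of monotone functions.

PROOF. (1) There are `a ∈ A` and `z` with `z (a, i) = false` for all `i`, `F (fun i => z (b, i)) =
false` for all `b ∈ A`, such that for all `w` with `F w = false` less than `K / (2 e)` of the games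
change their messages: `2 e * #{k | ¬ (G k).Same z (upd z a w)} < K`. Otherwise we find, by induction
on `B ⊆ A`, a `z` which is `false` outside the copies in `B`, with `F (fun i => z (b, i)) = false` for all
`b ∈ A`, and `B.card * K ≤ 2 e * ∑ k, (G k).rank P z` (in the step at least `K / (2 e)` of the ranks
grow, the others do not fall: `guses_rank_step`). For `B = A` this contradicts `rank ≤ P - 1`
(`guses_rank_lt`) and `(P - 1) (2 e) + 1 ≤ A.card`.
(2) Let `l k = (G k).leaf z :: (G k).zeros z`, of length at most `P`. Let `u` be given and
`y = upd z a u`, `z ≤ y`. If all `h` in `zeros z` have `h y = false` then `(G k).val y = (G k).leaf z y`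
(`guses_same_of_zeros`). So if `(G k).val y = true` then some `h ∈ l k` has `h y = true`. If
`F u = true` then `orC A F y = true`, and so `(e + 1) K ≤ 2 e #{k | (G k).val y = true} ≤
2 e #{k | ∃ h ∈ l k, h y = true}`.
(3) If `F u = false` then `orC A F y = false`. If `(G k).Same z y` then the `h` in `zeros z` have
`h y = false` (`Game.zeros_of_same`), so `∃ h ∈ l k, h y = true` implies `(G k).val y = true`, the wrong
answer. So `#{k | ∃ h ∈ l k, h y = true} ≤ #{k | ¬ (G k).Same z y} + #{k | (G k).val y ≠ orC A F y}`,
and `2 e` times this is less than `K + (2 e K - (e + 1) K) = e K`.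
-/

set_option autoImplicit false

namespace Pool.Agent.TAvg

open Pool.Agent.FewNeg Pool.Agent.FewG Pool.Agent.CGame Pool.Agent.TOpt

variable {ι α : Type}

theorem rand_of_copies [DecidableEq α] {𝒜 : BF (α × ι) → Prop} (h𝒜 : ∀ f, 𝒜 f → Monotone f)
    {F : BF ι} (hF0 : F (fun _ => false) = false) (A : Finset α) {K e P : ℕ} (hK : 0 < K)
    (he : 1 ≤ e) (G : Fin K → Game (α × ι)) (hG : ∀ k, GUses 𝒜 (G k) P)
    (hf : ∀ y, (e + 1) * K ≤ 2 * e * (Finset.univ.filter fun k => (G k).val y = orC A F y).card)
    (hA : (P - 1) * (2 * e) + 1 ≤ A.card) :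
    ∃ (a : α) (z : α × ι → Bool) (l : Fin K → List (BF (α × ι))),
      (∀ k, (l k).length ≤ P ∧ ∀ h ∈ l k, 𝒜 h) ∧
      (∀ u, F u = true → (e + 1) * K ≤ 2 * e *
        (Finset.univ.filter fun k => ((l k).any fun h => h (upd z a u)) = true).card) ∧
      (∀ u, F u = false → 2 *
        (Finset.univ.filter fun k => ((l k).any fun h => h (upd z a u)) = true).card < K) := by
  classical
  have hleU : ∀ (a : α) (z : α × ι → Bool), (∀ i, z (a, i) = false) → ∀ w, z ≤ upd z a w := by
    rintro a z hz w ⟨b, i⟩
    unfold upd
    split_ifs with hb
    · simp only at hb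
      rw [hb, hz i]
      exact Bool.false_le _
    · exact le_rfl
  -- a good input
  have hgood : ∃ a ∈ A, ∃ z : α × ι → Bool, (∀ i, z (a, i) = false) ∧
      (∀ b ∈ A, F (fun i => z (b, i)) = false) ∧
      ∀ w, F w = false →
        2 * e * (Finset.univ.filter fun k => ¬ (G k).Same z (upd z a w)).card < K := by
    by_contra hcon
    push Not at hcon
    have key : ∀ B : Finset α, B ⊆ A → ∃ z : α × ι → Bool, (∀ b, b ∉ B → ∀ i, z (b, i) = false) ∧
        (∀ b ∈ A, F (fun i => z (b, i)) = false) ∧
        B.card * K ≤ 2 * e * ∑ k, (G k).rank P z := by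
      intro B
      induction B using Finset.induction_on with
      | empty => exact fun _ => ⟨fun _ => false, fun _ _ _ => rfl, fun _ _ => hF0, by simp⟩
      | insert a B ha ih =>
        intro hB
        obtain ⟨z, h1, h2, h3⟩ := ih ((Finset.subset_insert a B).trans hB)
        have haA : a ∈ A := hB (Finset.mem_insert_self a B)
        obtain ⟨w, hw, hne⟩ := hcon a haA z (h1 a ha) h2
        have hle : z ≤ upd z a w := hleU a z (h1 a ha) w
        refine ⟨upd z a w, ?_, ?_, ?_⟩
        · intro b hb i
          rw [Finset.mem_insert, not_or] at hb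
          simp only [upd]
          rw [if_neg hb.1]
          exact h1 b hb.2 i
        · intro b hb
          by_cases hba : b = a
          · have : (fun i => upd z a w (b, i)) = w := by
              funext i
              simp [upd, hba]
            rw [this, hw]
          · have : (fun i => upd z a w (b, i)) = fun i => z (b, i) := by
              funext i
              simp [upd, hba]
            rw [this, h2 b hb]
        · rw [Finset.card_insert_of_notMem ha]
          have hsum : ∑ k, (G k).rank P z +
              (Finset.univ.filter fun k => ¬ (G k).Same z (upd z a w)).card ≤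
              ∑ k, (G k).rank P (upd z a w) := by
            rw [Finset.card_filter, ← Finset.sum_add_distrib]
            refine Finset.sum_le_sum fun k _ => ?_
            rcases guses_rank_step h𝒜 hle (hG k) with ⟨h4, h5⟩ | h4
            · rw [if_neg (by simpa using h4), h5, Nat.add_zero]
            · split_ifs <;> omega
          calc (B.card + 1) * K = B.card * K + K := by ring
            _ ≤ 2 * e * ∑ k, (G k).rank P z +
                2 * e * (Finset.univ.filter fun k => ¬ (G k).Same z (upd z a w)).card :=
                Nat.add_le_add h3 hne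
            _ = 2 * e * (∑ k, (G k).rank P z +
                (Finset.univ.filter fun k => ¬ (G k).Same z (upd z a w)).card) := by ring
            _ ≤ _ := Nat.mul_le_mul_left _ hsum
    obtain ⟨z, -, -, h3⟩ := key A (Finset.Subset.refl A)
    have h4 : ∑ k, (G k).rank P z ≤ K * (P - 1) := by
      calc ∑ k, (G k).rank P z ≤ ∑ _k : Fin K, (P - 1) :=
            Finset.sum_le_sum fun k _ => by
              have := guses_rank_lt z (hG k)
              omega
        _ = K * (P - 1) := by simp
    have h5 : A.card * K ≤ ((P - 1) * (2 * e)) * K := by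
      calc A.card * K ≤ 2 * e * ∑ k, (G k).rank P z := h3
        _ ≤ 2 * e * (K * (P - 1)) := Nat.mul_le_mul_left _ h4
        _ = ((P - 1) * (2 * e)) * K := by ring
    have h6 : A.card ≤ (P - 1) * (2 * e) := Nat.le_of_mul_le_mul_right h5 hK
    omega
  obtain ⟨a, haA, z, hz0, hzA, hgood⟩ := hgood
  have hle : ∀ w, z ≤ upd z a w := hleU a z hz0
  have hor : ∀ y, orC A F (upd z a y) = F y := by
    intro y
    have e1 : ∀ b, b ≠ a → (fun i => upd z a y (b, i)) = fun i => z (b, i) := by
      intro b hb
      funext i
      simp [upd, hb]
    have e2 : (fun i => upd z a y (a, i)) = y := by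
      funext i
      simp [upd]
    unfold orC
    rcases hFy : F y with _ | _
    · rw [decide_eq_false_iff_not]
      rintro ⟨b, hb, h1⟩
      by_cases hba : b = a
      · rw [hba, e2, hFy] at h1
        exact Bool.noConfusion h1
      · rw [e1 b hba, hzA b hb] at h1
        exact Bool.noConfusion h1
    · rw [decide_eq_true_iff]
      exact ⟨a, haA, by rw [e2]; exact hFy⟩
  refine ⟨a, z, fun k => (G k).leaf z :: (G k).zeros z, ?_, ?_, ?_⟩
  · intro k
    refine ⟨?_, ?_⟩
    · rw [List.length_cons]
      exact guses_zeros_length z (hG k)
    · intro h hh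
      obtain ⟨c1, c2⟩ := guses_zeros_mem z (hG k)
      rcases List.mem_cons.1 hh with rfl | hh
      · exact c2
      · exact c1 h hh
  · intro u hu
    refine (hf (upd z a u)).trans (Nat.mul_le_mul_left _ (Finset.card_le_card ?_))
    intro k hk
    rw [Finset.mem_filter] at hk ⊢
    refine ⟨hk.1, ?_⟩
    have hv : (G k).val (upd z a u) = true := by rw [hk.2, hor, hu]
    rw [List.any_eq_true]
    by_contra hcon
    push Not at hcon
    have h0 : ∀ g ∈ (G k).zeros z, g (upd z a u) = false := by
      intro g hg
      have := hcon g (List.mem_cons_of_mem _ hg)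
      simpa using this
    have h1 := guses_same_of_zeros h𝒜 (hle u) (hG k) h0
    rw [hv] at h1
    exact hcon _ List.mem_cons_self h1.symm
  · intro u hu
    have hy := hf (upd z a u)
    have hs := hgood u hu
    have h1 : (Finset.univ.filter fun k => (((G k).leaf z :: (G k).zeros z).any
        fun h => h (upd z a u)) = true) ⊆
        (Finset.univ.filter fun k => ¬ (G k).Same z (upd z a u)) ∪
        (Finset.univ.filter fun k => ¬ (G k).val (upd z a u) = orC A F (upd z a u)) := by
      intro k hk
      rw [Finset.mem_filter] at hk
      rw [Finset.mem_union, Finset.mem_filter, Finset.mem_filter]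
      by_cases hS : (G k).Same z (upd z a u)
      · right
        refine ⟨hk.1, ?_⟩
        rw [hor, hu]
        have h0 := Game.zeros_of_same hS
        have h2 := guses_same_of_zeros h𝒜 (hle u) (hG k) h0
        obtain ⟨g, hg, hgu⟩ := List.any_eq_true.1 hk.2
        rcases List.mem_cons.1 hg with rfl | hg
        · rw [h2, hgu]
          simp
        · rw [h0 g hg] at hgu
          exact absurd hgu (by simp)
      · exact Or.inl ⟨hk.1, hS⟩
    have h2 := (Finset.card_le_card h1).trans (Finset.card_union_le _ _)
    have h3 : (Finset.univ.filter fun k => (G k).val (upd z a u) = orC A F (upd z a u)).card +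
        (Finset.univ.filter fun k => ¬ (G k).val (upd z a u) = orC A F (upd z a u)).card = K := by
      rw [Finset.card_filter_add_card_filter_not]
      simp
    set X := (Finset.univ.filter fun k => (((G k).leaf z :: (G k).zeros z).any
        fun h => h (upd z a u)) = true).card
    set Y := (Finset.univ.filter fun k => ¬ (G k).Same z (upd z a u)).card
    set Z := (Finset.univ.filter fun k => (G k).val (upd z a u) = orC A F (upd z a u)).card
    set W := (Finset.univ.filter fun k =>
      ¬ (G k).val (upd z a u) = orC A F (upd z a u)).card
    have h4 : 2 * e * X < e * K := by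
      have h5 : 2 * e * X ≤ 2 * e * Y + 2 * e * W := by
        rw [← Nat.mul_add]
        exact Nat.mul_le_mul_left _ h2
      have h6 : 2 * e * Z + 2 * e * W = 2 * e * K := by
        rw [← Nat.mul_add, h3]
      have h7 : (e + 1) * K = e * K + K := by ring
      have h8 : 2 * e * K = e * K + e * K := by ring
      omega
    have h5 : e * (2 * X) < e * K := by
      calc e * (2 * X) = 2 * e * X := by ring
        _ < e * K := h4
    exact Nat.lt_of_mul_lt_mul_left h5

end Pool.Agent.TAvg
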