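import Mathlib

/-!
# Sampling

PROOF (Chernoff bound by counting). Let `M = 64 e ^ 2 (N + 1)`, `θ = 16 e (2 e + 1) (N + 1)` and
`l = 1 / (4 e)`. If `|g k| ≤ 1` and `∑ k, g k ≤ K m` then, by `exp x ≤ 1 + x + x ^ 2` for `|x| ≤ 1`,
`∑ ρ, exp (l ∑ j, g (ρ j)) = (∑ k, exp (l g k)) ^ M ≤ K ^ M exp (M (l m + l ^ 2))`, so at most
`K ^ M exp (- M l ^ 2)` of the `ρ` satisfy `∑ j, g (ρ j) ≥ M (m + 2 l)`. This is used for
`g k = 1` or `- 1` (`T k u` true or false) and `m = 0`, and for the negative and `m = - 1 / e`.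
-/

set_option autoImplicit false

namespace Pool.Agent.TAvg

private theorem sample_tail {K M : ℕ} {g : Fin K → ℝ} (hg : ∀ k, |g k| ≤ 1) {m l : ℝ}
    (hm : ∑ k, g k ≤ K * m) (hl : 0 < l) (hl1 : l ≤ 1) (E : Finset (Fin M → Fin K))
    (hE : ∀ ρ ∈ E, (M : ℝ) * (m + 2 * l) ≤ ∑ j, g (ρ j)) :
    (E.card : ℝ) ≤ (K : ℝ) ^ M * Real.exp (-(M * l ^ 2)) := by
  have h1 : ∀ k, Real.exp (l * g k) ≤ 1 + l * g k + l ^ 2 := by
    intro k
    have hk : |l * g k| ≤ 1 := by
      rw [abs_mul, abs_of_pos hl]
      exact mul_le_one₀ hl1 (abs_nonneg _) (hg k)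
    have h2 := (abs_le.1 (Real.abs_exp_sub_one_sub_id_le hk)).2
    have h3 : (l * g k) ^ 2 ≤ l ^ 2 := by
      rw [mul_pow]
      have h4 : g k ^ 2 ≤ 1 := by
        rw [← sq_abs]
        exact pow_le_one₀ (abs_nonneg _) (hg k)
      nlinarith [sq_nonneg l]
    linarith
  have h2 : ∑ k, Real.exp (l * g k) ≤ K * Real.exp (l * m + l ^ 2) := by
    calc ∑ k, Real.exp (l * g k) ≤ ∑ k, (1 + l * g k + l ^ 2) := Finset.sum_le_sum fun k _ => h1 k
      _ = K * (1 + l ^ 2) + l * ∑ k, g k := by
          rw [Finset.sum_add_distrib, Finset.sum_add_distrib, ← Finset.mul_sum]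
          simp only [Finset.sum_const, Finset.card_univ, Fintype.card_fin, nsmul_eq_mul]
          ring
      _ ≤ K * (1 + l ^ 2) + l * (K * m) := by
          have := mul_le_mul_of_nonneg_left hm hl.le
          linarith
      _ = K * ((l * m + l ^ 2) + 1) := by ring
      _ ≤ K * Real.exp (l * m + l ^ 2) :=
          mul_le_mul_of_nonneg_left (Real.add_one_le_exp _) (Nat.cast_nonneg K)
  have h3 : ∑ ρ : Fin M → Fin K, Real.exp (l * ∑ j, g (ρ j)) ≤
      (K : ℝ) ^ M * Real.exp (M * (l * m + l ^ 2)) := by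
    have h4 : ∀ ρ : Fin M → Fin K, Real.exp (l * ∑ j, g (ρ j)) = ∏ j, Real.exp (l * g (ρ j)) := by
      intro ρ
      rw [Finset.mul_sum, Real.exp_sum]
    rw [Finset.sum_congr rfl fun ρ _ => h4 ρ, ← Fintype.sum_pow (fun k => Real.exp (l * g k)) M]
    calc (∑ k, Real.exp (l * g k)) ^ M ≤ (K * Real.exp (l * m + l ^ 2)) ^ M :=
          pow_le_pow_left₀ (Finset.sum_nonneg fun k _ => (Real.exp_pos _).le) h2 M
      _ = (K : ℝ) ^ M * Real.exp (M * (l * m + l ^ 2)) := by
          rw [mul_pow, ← Real.exp_nat_mul]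
  have h4 : (E.card : ℝ) * Real.exp (l * (M * (m + 2 * l))) ≤
      ∑ ρ : Fin M → Fin K, Real.exp (l * ∑ j, g (ρ j)) := by
    rw [← nsmul_eq_mul, ← Finset.sum_const]
    calc ∑ _ρ ∈ E, Real.exp (l * (M * (m + 2 * l)))
        ≤ ∑ ρ ∈ E, Real.exp (l * ∑ j, g (ρ j)) := Finset.sum_le_sum fun ρ hρ =>
          Real.exp_le_exp.2 (mul_le_mul_of_nonneg_left (hE ρ hρ) hl.le)
      _ ≤ ∑ ρ : Fin M → Fin K, Real.exp (l * ∑ j, g (ρ j)) :=
          Finset.sum_le_sum_of_subset_of_nonneg (Finset.subset_univ _) fun ρ _ _ =>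
            (Real.exp_pos _).le
  have h5 := h4.trans h3
  have h6 : (K : ℝ) ^ M * Real.exp (M * (l * m + l ^ 2)) =
      (K : ℝ) ^ M * Real.exp (-(M * l ^ 2)) * Real.exp (l * (M * (m + 2 * l))) := by
    rw [mul_assoc, ← Real.exp_add]
    congr 2
    ring
  rw [h6] at h5
  exact le_of_mul_le_mul_right h5 (Real.exp_pos _)

theorem exists_sample {U : Type} [Fintype U] {K e N : ℕ} (hK : 0 < K) (he : 1 ≤ e)
    (T : Fin K → U → Bool) (hU : Fintype.card U ≤ 2 ^ N) :
    ∃ (M θ : ℕ) (ρ : Fin M → Fin K), M ≤ 64 * e ^ 2 * (N + 1) ∧ ∀ u,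
      ((e + 1) * K ≤ 2 * e * (Finset.univ.filter fun k => T k u = true).card →
        θ ≤ (Finset.univ.filter fun j => T (ρ j) u = true).card) ∧
      (2 * (Finset.univ.filter fun k => T k u = true).card < K →
        (Finset.univ.filter fun j => T (ρ j) u = true).card < θ) := by
  classical
  set M : ℕ := 64 * e ^ 2 * (N + 1) with hM
  set θ : ℕ := 16 * e * (2 * e + 1) * (N + 1) with hθ
  have he0 : (0 : ℝ) < e := by exact_mod_cast he
  have heR : (1 : ℝ) ≤ e := by exact_mod_cast he
  have hl : (0 : ℝ) < 1 / (4 * e) := by positivity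
  have hl1 : 1 / (4 * (e : ℝ)) ≤ 1 := by
    rw [div_le_one (by positivity)]
    linarith
  have hML : (M : ℝ) * (1 / (4 * e)) ^ 2 = 4 * (N + 1) := by
    rw [hM]
    push_cast
    field_simp
    norm_num
  -- the signs
  set s : U → Fin K → ℝ := fun u k => if T k u = true then 1 else -1 with hs
  have hs1 : ∀ u k, |s u k| ≤ 1 := by
    intro u k
    simp only [hs]
    split_ifs <;> simp
  have hsum : ∀ (n : ℕ) (u : U) (r : Fin n → Fin K), ∑ j, s u (r j) =
      2 * ((Finset.univ.filter fun j => T (r j) u = true).card : ℝ) - n := by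
    intro n u r
    have h1 : ∀ j, s u (r j) = 2 * (if T (r j) u = true then (1 : ℝ) else 0) - 1 := by
      intro j
      simp only [hs]
      split_ifs <;> norm_num
    rw [Finset.sum_congr rfl fun j _ => h1 j, Finset.sum_sub_distrib, ← Finset.mul_sum,
      Finset.sum_boole]
    simp
  have hsumK : ∀ u, ∑ k, s u k =
      2 * ((Finset.univ.filter fun k => T k u = true).card : ℝ) - K := fun u => hsum K u id
  have hθR : (θ : ℝ) = M / 2 + M / (4 * e) := by
    rw [hθ, hM]
    push_cast
    field_simp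
    ring
  -- the bad functions
  set bad : U → Finset (Fin M → Fin K) := fun u => Finset.univ.filter fun ρ =>
    ¬ (((e + 1) * K ≤ 2 * e * (Finset.univ.filter fun k => T k u = true).card →
        θ ≤ (Finset.univ.filter fun j => T (ρ j) u = true).card) ∧
      (2 * (Finset.univ.filter fun k => T k u = true).card < K →
        (Finset.univ.filter fun j => T (ρ j) u = true).card < θ)) with hbad
  have hcard : ∀ u, ((bad u).card : ℝ) ≤ (K : ℝ) ^ M * Real.exp (-(4 * (N + 1))) := by
    intro u
    rw [← hML]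
    by_cases c1 : (e + 1) * K ≤ 2 * e * (Finset.univ.filter fun k => T k u = true).card
    · -- many of the `T k u` are true
      refine sample_tail (g := fun k => - s u k) (m := - (1 / e)) (fun k => ?_) ?_ hl hl1 (bad u)
        fun ρ hρ => ?_
      · rw [abs_neg]
        exact hs1 u k
      · rw [Finset.sum_neg_distrib, hsumK]
        have h1 : ((e : ℝ) + 1) * K ≤
            2 * e * ((Finset.univ.filter fun k => T k u = true).card : ℝ) := by exact_mod_cast c1
        have h2 : (K : ℝ) * (-(1 / e)) = -(K / e) := by ring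
        rw [h2]
        have h3 : (K : ℝ) / e ≤ 2 * ((Finset.univ.filter fun k => T k u = true).card : ℝ) - K := by
          rw [div_le_iff₀ he0]
          linarith
        linarith
      · rw [Finset.mem_filter] at hρ
        have h1 : (Finset.univ.filter fun j => T (ρ j) u = true).card < θ := by
          by_contra hcon
          apply hρ.2
          refine ⟨fun _ => by omega, fun h2 => ?_⟩
          exfalso
          have h3 : e * (2 * (Finset.univ.filter fun k => T k u = true).card) < e * K :=
            Nat.mul_lt_mul_of_pos_left h2 (by omega)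
          have h4 : (e + 1) * K = e * K + K := by ring
          have h5 : 2 * e * (Finset.univ.filter fun k => T k u = true).card =
            e * (2 * (Finset.univ.filter fun k => T k u = true).card) := by ring
          omega
        rw [Finset.sum_neg_distrib, hsum M u ρ]
        have h2 : ((Finset.univ.filter fun j => T (ρ j) u = true).card : ℝ) ≤ θ := by
          exact_mod_cast h1.le
        rw [hθR] at h2
        have h3 : (M : ℝ) * (-(1 / e) + 2 * (1 / (4 * e))) = - (2 * (M / (4 * e))) := by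
          field_simp
          ring
        rw [h3]
        linarith
    · by_cases c2 : 2 * (Finset.univ.filter fun k => T k u = true).card < K
      · refine sample_tail (g := fun k => s u k) (m := 0) (fun k => hs1 u k) ?_ hl hl1 (bad u)
          fun ρ hρ => ?_
        · rw [hsumK, mul_zero]
          have h1 : 2 * ((Finset.univ.filter fun k => T k u = true).card : ℝ) ≤ K := by
            exact_mod_cast c2.le
          linarith
        · rw [Finset.mem_filter] at hρ
          have h1 : θ ≤ (Finset.univ.filter fun j => T (ρ j) u = true).card := by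
            by_contra hcon
            apply hρ.2
            exact ⟨fun h2 => absurd h2 c1, fun _ => by omega⟩
          rw [hsum M u ρ]
          have h2 : (θ : ℝ) ≤ ((Finset.univ.filter fun j => T (ρ j) u = true).card : ℝ) := by
            exact_mod_cast h1
          rw [hθR] at h2
          have h3 : (M : ℝ) * (0 + 2 * (1 / (4 * e))) = 2 * (M / (4 * e)) := by ring
          rw [h3]
          linarith
      · have h0 : bad u = ∅ := by
          rw [hbad]
          refine Finset.filter_eq_empty_iff.2 fun ρ _ => ?_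
          rw [not_not]
          exact ⟨fun h => absurd h c1, fun h => absurd h c2⟩
        rw [h0, Finset.card_empty, Nat.cast_zero]
        positivity
  -- the union bound
  have hKM : (0 : ℝ) < (K : ℝ) ^ M := by positivity
  have h1 : (((Finset.univ : Finset U).biUnion bad).card : ℝ) < (K : ℝ) ^ M := by
    calc (((Finset.univ : Finset U).biUnion bad).card : ℝ)
        ≤ ∑ u, ((bad u).card : ℝ) := by
          exact_mod_cast Finset.card_biUnion_le
      _ ≤ ∑ _u : U, (K : ℝ) ^ M * Real.exp (-(4 * (N + 1))) := Finset.sum_le_sum fun u _ => hcard u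
      _ = (Fintype.card U : ℝ) * ((K : ℝ) ^ M * Real.exp (-(4 * (N + 1)))) := by
          rw [Finset.sum_const, Finset.card_univ, nsmul_eq_mul]
      _ ≤ (2 : ℝ) ^ N * ((K : ℝ) ^ M * Real.exp (-(4 * (N + 1)))) := by
          refine mul_le_mul_of_nonneg_right ?_ (by positivity)
          exact_mod_cast hU
      _ = (K : ℝ) ^ M * ((2 : ℝ) ^ N * Real.exp (-(4 * (N + 1)))) := by ring
      _ < (K : ℝ) ^ M * 1 := by
          refine mul_lt_mul_of_pos_left ?_ hKM
          have h2 : (2 : ℝ) ^ N < Real.exp (4 * (N + 1)) := by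
            have h3 : (2 : ℝ) ^ N ≤ Real.exp 1 ^ N :=
              pow_le_pow_left₀ (by norm_num) (by linarith [Real.exp_one_gt_d9]) N
            have h4 : Real.exp 1 ^ N = Real.exp N := by
              rw [← Real.exp_nat_mul, mul_one]
            rw [h4] at h3
            refine h3.trans_lt (Real.exp_lt_exp.2 ?_)
            have : (0 : ℝ) ≤ N := Nat.cast_nonneg N
            linarith
          rw [Real.exp_neg, ← div_eq_mul_inv, div_lt_one (Real.exp_pos _)]
          exact h2
      _ = (K : ℝ) ^ M := mul_one _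
  obtain ⟨ρ, hρ⟩ : ∃ ρ : Fin M → Fin K, ρ ∉ (Finset.univ : Finset U).biUnion bad := by
    by_contra hcon
    push Not at hcon
    have h2 : (Finset.univ : Finset U).biUnion bad = Finset.univ :=
      Finset.eq_univ_iff_forall.2 hcon
    rw [h2, Finset.card_univ, Fintype.card_fun, Fintype.card_fin, Fintype.card_fin] at h1
    push_cast at h1
    exact lt_irrefl _ h1
  refine ⟨M, θ, ρ, le_rfl, fun u => ?_⟩
  by_contra hcon
  apply hρ
  rw [Finset.mem_biUnion]
  refine ⟨u, Finset.mem_univ u, ?_⟩
  rw [hbad]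
  exact Finset.mem_filter.2 ⟨Finset.mem_univ _, hcon⟩

end Pool.Agent.TAvg
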