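import Mathlib
import Pool.Agent.FewG.Dual

/-!
# Threshold functions of functions with small monotone circuits

PACKAGE. Prove `computes_thr` (helper lemmas allowed, keep the statement).

PROOF. By induction on `j ≤ M` there is a straight-line program (`SLP L s' 0`) with
`s' ≤ j * s + j * (j + 1)` gates in which for every `k` the function `x ↦ decide (k ≤ #{i < j | f i x})`
occurs, at some depth. `j = 0`: the constants `true` (`k = 0`) and `false` (`k ≥ 1`). Step: append a
program for `f j` (`SLP.append`), and add, for `k = 1, ..., j + 1`, the gates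
`th k j ∨ (th (k - 1) j ∧ f j)` (two gates each); `k = 0` is the constant `true`, `k > j + 1` the constant
`false`. (For the indices use `List.ofFn`, `Fin.castSucc`, or functions `f : ℕ → BF ι` and the numbers
`((Finset.range j).filter fun i => f i x = true).card`.)
-/

set_option autoImplicit false

namespace Pool.Agent.TAvg

open Pool.Agent.FewNeg Pool.Agent.FewG

/-- the number of the first functions with value `true` -/
private def tcnt {ι : Type} (F : ℕ → BF ι) (j : ℕ) (x : ι → Bool) : ℕ :=
  ((Finset.range j).filter fun i => F i x = true).card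

private theorem tcnt_zero {ι : Type} (F : ℕ → BF ι) (x : ι → Bool) : tcnt F 0 x = 0 := by
  simp [tcnt]

private theorem tcnt_succ {ι : Type} (F : ℕ → BF ι) (j : ℕ) (x : ι → Bool) :
    tcnt F (j + 1) x = tcnt F j x + (if F j x = true then 1 else 0) := by
  unfold tcnt
  rw [Finset.range_add_one, Finset.filter_insert]
  by_cases h : F j x = true
  · rw [if_pos h, if_pos h, Finset.card_insert_of_notMem]
    intro h'
    exact absurd (Finset.mem_range.1 (Finset.mem_filter.1 h').1) (lt_irrefl _)
  · rw [if_neg h, if_neg h, add_zero]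

private theorem tcnt_le {ι : Type} (F : ℕ → BF ι) (j : ℕ) (x : ι → Bool) : tcnt F j x ≤ j := by
  unfold tcnt
  exact (Finset.card_filter_le _ _).trans (by rw [Finset.card_range])

private theorem thr_step {ι : Type} (F : ℕ → BF ι) (j k : ℕ) :
    (fun x => decide (k + 1 ≤ tcnt F (j + 1) x)) =
      fun x => decide (k + 1 ≤ tcnt F j x) || (decide (k ≤ tcnt F j x) && F j x) := by
  funext x
  rw [tcnt_succ]
  rw [Bool.eq_iff_iff]
  simp only [decide_eq_true_eq, Bool.or_eq_true, Bool.and_eq_true]
  by_cases h : F j x = true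
  · rw [if_pos h]
    constructor
    · intro h1
      right
      exact ⟨by omega, h⟩
    · rintro (h1 | ⟨h1, -⟩) <;> omega
  · rw [if_neg h, add_zero]
    constructor
    · exact fun h1 => Or.inl h1
    · rintro (h1 | ⟨-, h1⟩)
      · exact h1
      · exact absurd h1 h

private theorem thr_ind {ι : Type} {s : ℕ} (F : ℕ → BF ι) (M : ℕ)
    (hF : ∀ j, j < M → ∃ d, Computes s d 0 (F j)) : ∀ j, j ≤ M →
    ∃ (L : List (BF ι × ℕ)) (s' : ℕ), SLP L s' 0 ∧ s' ≤ j * s + j * (j + 1) ∧
      ∀ k : ℕ, ∃ d, ((fun x => decide (k ≤ tcnt F j x)), d) ∈ L := by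
  intro j
  induction j with
  | zero =>
    intro _
    refine ⟨[(fun _ => true, 0), (fun _ => false, 0)], 0, SLP.const _ (SLP.const _ SLP.nil),
      by simp, fun k => ⟨0, ?_⟩⟩
    rcases Nat.eq_zero_or_pos k with rfl | hk
    · have : (fun x => decide (0 ≤ tcnt F 0 x)) = fun _ : ι → Bool => true := by
        funext x
        simp
      rw [this]
      exact List.mem_cons_self
    · have : (fun x => decide (k ≤ tcnt F 0 x)) = fun _ : ι → Bool => false := by
        funext x
        rw [tcnt_zero]
        simp only [decide_eq_false_iff_not]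
        omega
      rw [this]
      exact List.mem_cons_of_mem _ List.mem_cons_self
  | succ j ih =>
    intro hj
    obtain ⟨L, s', h1, h2, h3⟩ := ih (by omega)
    obtain ⟨d, L', s'', d', t', g1, g2, g3, -, g5⟩ := hF j (by omega)
    have ht' : t' = 0 := by omega
    subst ht'
    have key : ∀ m : ℕ, ∃ (L₂ : List (BF ι × ℕ)) (s₂ : ℕ), SLP L₂ s₂ 0 ∧ s₂ ≤ s' + s'' + 2 * m ∧
        (∀ p ∈ L' ++ L, p ∈ L₂) ∧
        ∀ k, k < m → ∃ d, ((fun x => decide (k + 1 ≤ tcnt F (j + 1) x)), d) ∈ L₂ := by
      intro m
      induction m with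
      | zero =>
        exact ⟨L' ++ L, s'' + s', by simpa using SLP.append g1 h1, by omega, fun p hp => hp,
          fun k hk => absurd hk (Nat.not_lt_zero _)⟩
      | succ m ihm =>
        obtain ⟨L₂, s₂, a1, a2, a3, a4⟩ := ihm
        obtain ⟨d1, h4⟩ := h3 m
        obtain ⟨d2, h5⟩ := h3 (m + 1)
        have b1 := SLP.and a1 (a3 _ (List.mem_append_right _ h4))
          (a3 _ (List.mem_append_left _ g2))
        have b2 := SLP.or b1 (List.mem_cons_of_mem _ (a3 _ (List.mem_append_right _ h5)))
          List.mem_cons_self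
        rw [← thr_step F j m] at b2
        refine ⟨_, _, b2, by omega, fun p hp => List.mem_cons_of_mem _
          (List.mem_cons_of_mem _ (a3 p hp)), fun k hk => ?_⟩
        rcases Nat.lt_succ_iff_lt_or_eq.1 hk with hk | rfl
        · obtain ⟨d, hd⟩ := a4 k hk
          exact ⟨d, List.mem_cons_of_mem _ (List.mem_cons_of_mem _ hd)⟩
        · exact ⟨_, List.mem_cons_self⟩
    obtain ⟨L₂, s₂, a1, a2, a3, a4⟩ := key (j + 1)
    refine ⟨L₂, s₂, a1, by nlinarith, fun k => ?_⟩
    rcases Nat.eq_zero_or_pos k with rfl | hk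
    · obtain ⟨d, hd⟩ := h3 0
      have : (fun x => decide (0 ≤ tcnt F (j + 1) x)) = fun x => decide (0 ≤ tcnt F j x) := by
        funext x
        simp
      rw [this]
      exact ⟨d, a3 _ (List.mem_append_right _ hd)⟩
    · rcases Nat.lt_or_ge (j + 1) k with hk' | hk'
      · obtain ⟨d, hd⟩ := h3 k
        have : (fun x => decide (k ≤ tcnt F (j + 1) x)) = fun x => decide (k ≤ tcnt F j x) := by
          funext x
          have e1 := tcnt_le F (j + 1) x
          have e2 := tcnt_le F j x
          rw [Bool.eq_iff_iff]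
          simp only [decide_eq_true_eq]
          omega
        rw [this]
        exact ⟨d, a3 _ (List.mem_append_right _ hd)⟩
      · obtain ⟨k, rfl⟩ : ∃ k', k = k' + 1 := ⟨k - 1, by omega⟩
        exact a4 k (by omega)

theorem computes_thr {ι : Type} {M s : ℕ} (θ : ℕ) (f : Fin M → BF ι)
    (hf : ∀ j, ∃ d, Computes s d 0 (f j)) :
    ∃ d, Computes (M * s + M * (M + 1)) d 0
      (fun x => decide (θ ≤ (Finset.univ.filter fun j => f j x = true).card)) := by
  let F : ℕ → BF ι := fun i => if h : i < M then f ⟨i, h⟩ else fun _ => false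
  have hF : ∀ (i : ℕ) (h : i < M), F i = f ⟨i, h⟩ := fun i h => dif_pos h
  obtain ⟨L, s', h1, h2, h3⟩ := thr_ind F M (fun j hj => by
    rw [hF j hj]
    exact hf _) M le_rfl
  obtain ⟨d, hd⟩ := h3 θ
  have e : ∀ x, tcnt F M x = (Finset.univ.filter fun j => f j x = true).card := by
    intro x
    unfold tcnt
    symm
    refine Finset.card_bij (fun (i : Fin M) _ => (i : ℕ)) ?_ ?_ ?_
    · intro i hi
      rw [Finset.mem_filter] at hi ⊢
      refine ⟨Finset.mem_range.2 i.2, ?_⟩
      rw [hF i i.2]
      exact hi.2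
    · intro i _ i' _ h
      exact Fin.ext h
    · intro i hi
      rw [Finset.mem_filter, Finset.mem_range] at hi
      refine ⟨⟨i, hi.1⟩, ?_, rfl⟩
      rw [Finset.mem_filter]
      refine ⟨Finset.mem_univ _, ?_⟩
      rw [← hF i hi.1]
      exact hi.2
  simp only [e] at hd
  exact ⟨d, L, s', d, 0, h1, hd, h2, le_rfl, le_rfl⟩

end Pool.Agent.TAvg
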