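import Mathlib
import Pool.Agent.TAvg.RandElim
import Pool.Agent.TAvg.Sample
import Pool.Agent.TAvg.ThrSize

/-!
# The lower bound for randomised games (size of monotone circuits)

PACKAGE. Prove `rand_lower_size` from `rand_of_copies`, `exists_sample`, `computes_thr` (other
packages) and `computes_or_list` (`Pool/Agent/CGame/Elim.lean`). Compare `Decides.lower` in
`Pool/Agent/CGame/Block.lean`, `Game.mono_of_copies` in `Pool/Agent/CGame/Elim.lean`, and the similar
package `RandLow.lean`.

PROOF. Let `𝒜 f` be `∃ d, Computes s d 0 f` (closed under substitutions: `Computes.subst`; monotone: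
`Computes.monotone'`). `G.Le s d P` implies `GUses 𝒜 G P` (induction). Take `d k` and the games `G k`
from `hg k`, and let `x₀ p = Sum.elim (fun _ => false) id (σ p)`. The game `(G k x₀).sub σ` has on
`y : Fin N × κ → Bool` the value `g k (fun p => Sum.elim y id (σ p))`, since this input agrees with
`x₀` on `S`. By `hgL` and `hL` the hypothesis `hf` of `rand_of_copies` holds. Let
`T k u = (l k).any fun h => h (upd z a u)`: it has a monotone circuit with `P * (s + 1)` gates
(`computes_or_list`; the functions of `l k` have different depths, take the maximum; the substitution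
as in `Game.mono_of_copies`). `exists_sample` with `U = κ → Bool` gives `M, θ, ρ`, and
`F u = decide (θ ≤ #{j | T (ρ j) u = true})`. Now `computes_thr`.
-/

set_option autoImplicit false

namespace Pool.Agent.TAvg

open Pool.Agent.FewNeg Pool.Agent.FewG Pool.Agent.CGame Pool.Agent.TOpt

/-- The games for monotone circuits are games for a class of monotone functions. -/
private theorem le_guses_size {ι : Type} {s d : ℕ} {G : Game ι} : ∀ {P : ℕ}, G.Le s d P →
    GUses (fun f => ∃ d, Computes s d 0 f) G P := by
  induction G with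
  | out f => exact fun h => ⟨⟨d, h.1⟩, h.2⟩
  | round T q next ih =>
    rintro P ⟨h1, P', h2, h3⟩
    exact ⟨fun i => ⟨d, h1 i⟩, P', h2, fun a => ih a (h3 a)⟩

private theorem max_depth_size {ι : Type} {s : ℕ} (l : List (BF ι))
    (h : ∀ f ∈ l, ∃ d, Computes s d 0 f) : ∃ d, ∀ f ∈ l, Computes s d 0 f := by
  induction l with
  | nil => exact ⟨0, by simp⟩
  | cons f l ih =>
    obtain ⟨d1, h1⟩ := h f List.mem_cons_self
    obtain ⟨d2, h2⟩ := ih fun g hg => h g (List.mem_cons_of_mem _ hg)
    refine ⟨max d1 d2, fun g hg => ?_⟩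
    rcases List.mem_cons.1 hg with rfl | hg
    · exact h1.mono le_rfl (le_max_left _ _) le_rfl
    · exact (h2 g hg).mono le_rfl (le_max_right _ _) le_rfl

theorem rand_lower_size {κ : Type} [Fintype κ] [DecidableEq κ]
    {L : Set (List Bool)} {n N : ℕ} {F : BF κ}
    (hF0 : F (fun _ => false) = false) {S : Finset (Fin n)} {B : Finset (Fin N)}
    {σ : Fin n → (Fin N × κ) ⊕ Bool} (hσ : ∀ p ∈ S, σ p = Sum.inr false)
    (hL : ∀ y : Fin N × κ → Bool, slice L n (fun p => Sum.elim y id (σ p)) = orC B F y)
    {s P e K : ℕ} (he : 1 ≤ e) (hK : 0 < K) (g : Fin K → BF (Fin n))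
    (hg : ∀ k, ∃ d, Decides S s d P (g k))
    (hgL : ∀ x, (e + 1) * K ≤ 2 * e * (Finset.univ.filter fun k => g k x = slice L n x).card)
    (hB : (P - 1) * (2 * e) + 1 ≤ B.card) :
    ∃ M d : ℕ, M ≤ 64 * e ^ 2 * (Fintype.card κ + 1) ∧
      Computes (M * (P * (s + 1)) + M * (M + 1)) d 0 F := by
  classical
  choose d G h1 h2 h3 using hg
  set x₀ : Fin n → Bool := fun p => Sum.elim (fun _ : Fin N × κ => false) id (σ p) with hx₀
  have h𝒜 : ∀ f : BF (Fin N × κ), (∃ d, Computes s d 0 f) → Monotone f :=
    fun f ⟨d, hd⟩ => Computes.monotone' hd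
  have hval : ∀ k y, ((G k x₀).sub σ).val y = g k (fun p => Sum.elim y id (σ p)) := by
    intro k y
    rw [Game.sub_val, ← h3]
    congr 1
    refine h1 k _ _ fun i hi => ?_
    rw [hx₀]
    simp only [hσ i hi]
    rfl
  obtain ⟨a, z, l, hl, hp, hn⟩ := rand_of_copies h𝒜 hF0 B hK he (fun k => (G k x₀).sub σ)
    (fun k => le_guses_size ((h2 k x₀).sub σ)) (fun y => by
      have := hgL (fun p => Sum.elim y id (σ p))
      rw [hL] at this
      simpa only [hval] using this) hB
  set T : Fin K → (κ → Bool) → Bool := fun k u => (l k).any fun h => h (upd z a u) with hTdef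
  have hT : ∀ k, ∃ d, Computes (P * (s + 1)) d 0 (T k) := by
    intro k
    obtain ⟨D, hD⟩ := max_depth_size (l k) (hl k).2
    have hsub : ∀ {g : BF (Fin N × κ)}, Computes s D 0 g →
        Computes s D 0 (fun y => g (upd z a y)) := by
      intro g hg
      refine hg.subst (fun p => if p.1 = a then Sum.inl p.2 else Sum.inr (z p)) ?_
      intro u
      have : (upd z a u) = fun p => Sum.elim u id
          ((if p.1 = a then Sum.inl p.2 else Sum.inr (z p)) : κ ⊕ Bool) := by
        funext p
        simp only [upd]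
        split_ifs <;> rfl
      rw [this]
    refine ⟨_, (computes_or_list (s := s) (d := D) (F := T k)
      ((l k).map fun g y => g (upd z a y)) ?_ ?_).mono ?_ le_rfl le_rfl⟩
    · intro g hg
      obtain ⟨g', hg', rfl⟩ := List.mem_map.1 hg
      exact hsub (hD g' hg')
    · intro u
      rw [hTdef]
      simp only [List.any_eq_true]
      constructor
      · rintro ⟨g, hg, hu⟩
        exact ⟨_, List.mem_map.2 ⟨g, hg, rfl⟩, hu⟩
      · rintro ⟨g, hg, hu⟩
        obtain ⟨g', hg', rfl⟩ := List.mem_map.1 hg
        exact ⟨g', hg', hu⟩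
    · rw [List.length_map]
      exact Nat.mul_le_mul_right _ (hl k).1
  obtain ⟨M, θ, ρ, hM, hs⟩ := exists_sample (N := Fintype.card κ) hK he T (by
    rw [Fintype.card_fun, Fintype.card_bool])
  obtain ⟨d', hd'⟩ := computes_thr θ (fun j => T (ρ j)) (fun j => hT (ρ j))
  refine ⟨M, d', hM, ?_⟩
  have hF : F = fun u => decide (θ ≤ (Finset.univ.filter fun j => T (ρ j) u = true).card) := by
    funext u
    rcases hu : F u with _ | _
    · symm
      rw [decide_eq_false_iff_not, not_le]
      exact (hs u).2 (hn u hu)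
    · symm
      rw [decide_eq_true_iff]
      exact (hs u).1 (hp u hu)
  rw [hF]
  exact hd'

end Pool.Agent.TAvg
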