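import Mathlib
import Pool.Agent.TAvg.Minimax
import Pool.Agent.TAvg.RandLowS
import Pool.Agent.CGame.FinB

/-!
# The lower bound on average for small monotone circuits

PACKAGE. Prove `LTB_avg` from `minimax_bool` and `rand_lower_size` (other packages). Follow the proof
of `LTB_game` in `Pool/Agent/CGame/FinB.lean`; helper lemmas allowed, keep the statement.

PROOF. Let `C = 2 * (2 (c + 13) + 1) * (4 * 1029 ^ 8)`. Suppose the hypotheses hold and there is no hard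
distribution; `minimax_bool` (`X = Fin n → Bool`) gives `K > 0` and `g k` with
`∃ d, Decides S s d P (g k)`, so `P ≥ 1`. Let `N₀ = (P - 1) e + 1 + S.card`,
`A = log (s + P + e) + 1`, `L = log n`, `l = log L`, `i = clog (512 A)`, so `512 A ≤ 2 ^ i ≤ 1024 A`,
`512 A ≤ a ≤ 1029 A` for `a = aT i = 2 ^ i + 5`, and `q ^ 2 ≤ 4 a ^ 8 ≤ 4 * 1029 ^ 8 * A ^ 8` for
`q = qT i`. `sT (c + 12) n ≤ (2 (c + 13) + 1) (l + 1)`. So with `N = (P - 1) (2 e) + 1 + S.card ≤ 2 N₀`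
we get `N * q ^ 2 ≤ n / sT (c + 12) n`. Moreover `P ≤ N₀ < n < 2 ^ (L + 1)`, so
`s + P + e ≤ 2 ^ (L ^ c + L + 2)`, `A ≤ L ^ c + L + 3 ≤ 2 (L + 2) ^ (c + 1)`,
`512 A ≤ 2 ^ (10 + (c + 1) (l + 2))`, and `i < sT (c + 12) n`. `MS_sub` as in `LTB_game`, and
`rand_lower_size` gives `M ≤ 64 e ^ 2 (q * q + 1)` and a circuit for `andrF q a` with
`t = M (P (s + 1)) + M (M + 1)` gates. `andr_size`: `2 ^ a ≤ t`. But `e, P, s + 1 ≤ 2 ^ A`, so
`M ≤ 320 * 2 ^ (2 A) * a ^ 8`, `t ≤ 3 M ^ 2 * 2 ^ (2 A)` (if `M ≥ 1`) `< 2 ^ (19 + 6 A) * a ^ 16`, and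
`a ^ 32 ≤ 2 ^ a` (as `a ≥ 517`), `2 (19 + 6 A) ≤ a`, so `t < 2 ^ a`, a contradiction.
-/

set_option autoImplicit false

namespace Pool.Agent.TAvg

open Pool.Agent.FewNeg Pool.Agent.FewG Pool.Agent.CGame Pool.Agent.TOpt

private theorem AvgLowS_pow {a : ℕ} (ha : 256 ≤ a) : a ^ 32 ≤ 2 ^ a := by
  induction a, ha using Nat.le_induction with
  | base => norm_num
  | succ a ha ih =>
    have h1 : (a + 1) * 256 ≤ a * 257 := by omega
    have h2 : (a + 1) ^ 32 * 256 ^ 32 ≤ a ^ 32 * 257 ^ 32 := by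
      rw [← mul_pow, ← mul_pow]
      exact Nat.pow_le_pow_left h1 32
    have h3 : (257 : ℕ) ^ 32 ≤ 2 * 256 ^ 32 := by norm_num
    have h4 : (a + 1) ^ 32 * 256 ^ 32 ≤ (2 * a ^ 32) * 256 ^ 32 := by
      calc (a + 1) ^ 32 * 256 ^ 32 ≤ a ^ 32 * 257 ^ 32 := h2
        _ ≤ a ^ 32 * (2 * 256 ^ 32) := Nat.mul_le_mul_left _ h3
        _ = _ := by ring
    have h5 : (a + 1) ^ 32 ≤ 2 * a ^ 32 := Nat.le_of_mul_le_mul_right h4 (by norm_num)
    calc (a + 1) ^ 32 ≤ 2 * a ^ 32 := h5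
      _ ≤ 2 * 2 ^ a := Nat.mul_le_mul_left _ ih
      _ = 2 ^ (a + 1) := by ring

private theorem AvgLowS_num {A a q e P s M : ℕ} (hA : 1 ≤ A) (ha : 512 * A + 5 ≤ a)
    (hq : q ≤ 2 * a ^ 4) (h : s + P + e < 2 ^ A) (hP : 1 ≤ P)
    (hM : M ≤ 64 * e ^ 2 * (q * q + 1)) : M * (P * (s + 1)) + M * (M + 1) < 2 ^ a := by
  obtain ⟨X, hX⟩ : ∃ X, X = 2 ^ A := ⟨_, rfl⟩
  rw [← hX] at h
  have hX1 : 1 ≤ X := by omega
  have he : e ≤ X := by omega
  have ha8 : 1 ≤ a ^ 8 := Nat.one_le_pow _ _ (by omega)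
  have hqq : q * q + 1 ≤ 5 * a ^ 8 := by
    have h1 : q * q ≤ (2 * a ^ 4) * (2 * a ^ 4) := Nat.mul_le_mul hq hq
    have h2 : (2 * a ^ 4) * (2 * a ^ 4) = 4 * a ^ 8 := by ring
    omega
  obtain ⟨Y, hY⟩ : ∃ Y, Y = 320 * X ^ 2 * a ^ 8 := ⟨_, rfl⟩
  have hMY : M ≤ Y := by
    calc M ≤ 64 * e ^ 2 * (q * q + 1) := hM
      _ ≤ 64 * X ^ 2 * (5 * a ^ 8) :=
        Nat.mul_le_mul (Nat.mul_le_mul_left _ (Nat.pow_le_pow_left he 2)) hqq
      _ = Y := by rw [hY]; ring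
  have hXY : X ^ 2 ≤ Y := by
    rw [hY]
    calc X ^ 2 = 1 * X ^ 2 * 1 := by ring
      _ ≤ 320 * X ^ 2 * a ^ 8 := Nat.mul_le_mul (Nat.mul_le_mul_right _ (by norm_num)) ha8
  have hY1 : 1 ≤ Y := (Nat.one_le_pow _ _ hX1).trans hXY
  have hPs : P * (s + 1) ≤ Y := by
    refine le_trans ?_ hXY
    rw [pow_two]
    exact Nat.mul_le_mul (by omega) (by omega)
  have ht : M * (P * (s + 1)) + M * (M + 1) ≤ 3 * (Y * Y) := by
    have h1 : M * (P * (s + 1)) ≤ Y * Y := Nat.mul_le_mul hMY hPs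
    have h2 : M * (M + 1) ≤ Y * (Y + 1) := Nat.mul_le_mul hMY (by omega)
    have h3 : Y * (Y + 1) = Y * Y + Y := by ring
    have h4 : Y ≤ Y * Y := Nat.le_mul_of_pos_left _ hY1
    omega
  obtain ⟨Z, hZ⟩ : ∃ Z, Z = 2 ^ 19 * X ^ 4 * a ^ 16 := ⟨_, rfl⟩
  have hYZ : 3 * (Y * Y) < Z := by
    have h1 : 3 * (Y * Y) = 307200 * (X ^ 4 * a ^ 16) := by rw [hY]; ring
    have h2 : Z = 524288 * (X ^ 4 * a ^ 16) := by rw [hZ]; ring
    have h3 : 0 < X ^ 4 * a ^ 16 :=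
      Nat.mul_pos (Nat.pow_pos hX1) (Nat.pow_pos (by omega))
    rw [h1, h2]
    omega
  have hZZ : Z * Z ≤ 2 ^ a * 2 ^ a := by
    have h1 : Z * Z = 2 ^ (38 + 8 * A) * a ^ 32 := by
      rw [hZ, hX, pow_add, pow_mul']
      ring
    rw [h1]
    exact Nat.mul_le_mul (Nat.pow_le_pow_right (by norm_num) (by omega))
      (AvgLowS_pow (by omega))
  have hZa : Z ≤ 2 ^ a := Nat.mul_self_le_mul_self_iff.1 hZZ
  omega

theorem LTB_avg (c : ℕ) : ∃ C : ℕ, ∀ (n e : ℕ) (S : Finset (Fin n)) (s P : ℕ),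
    1 ≤ e → s ≤ 2 ^ Nat.log 2 n ^ c → e ≤ 2 ^ Nat.log 2 n ^ c →
      C * (Nat.log 2 (Nat.log 2 n) + 1) * ((P - 1) * e + 1 + S.card) *
        (Nat.log 2 (s + P + e) + 1) ^ 8 < n →
        HardDist (fun g => ∃ d, Decides S s d P g) (slice (LTB (c + 12)) n) e := by
  refine ⟨2 * (2 * (c + 13) + 1) * (4 * 1029 ^ 8), fun n e S s P he hs hes hcon => ?_⟩
  by_contra hnot
  obtain ⟨K, g, hK, hg, hgL⟩ := minimax_bool _ _ he hnot
  have hP1 : 1 ≤ P := by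
    obtain ⟨d, G, -, h2, -⟩ := hg ⟨0, hK⟩
    exact (h2 fun _ => false).pos
  set A := Nat.log 2 (s + P + e) + 1 with hA
  set L := Nat.log 2 n with hL
  set l := Nat.log 2 L with hl
  have hA1 : 1 ≤ A := by omega
  have h1 : s + P + e < 2 ^ A := Nat.lt_pow_succ_log_self (by norm_num) _
  set i := Nat.clog 2 (512 * A) with hi
  have h2 : 512 * A ≤ 2 ^ i := Nat.le_pow_clog (by norm_num) _
  have h3 : 2 ^ i ≤ 1024 * A := by
    have h5 := Nat.pow_pred_clog_lt_self (b := 2) (x := 512 * A) (by norm_num) (by omega)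
    rw [Nat.pred_eq_sub_one, ← hi] at h5
    have h6 : 0 < i := by
      rw [hi]
      exact Nat.clog_pos (by norm_num) (by omega)
    have h7 : 2 ^ i = 2 * 2 ^ (i - 1) := by
      rw [← pow_succ', Nat.sub_add_cancel h6]
    omega
  have h4 : aT i ≤ 1029 * A := by unfold aT; omega
  have h5 : qT i ^ 2 ≤ 4 * 1029 ^ 8 * A ^ 8 := by
    calc qT i ^ 2 ≤ (2 * aT i ^ 4) ^ 2 := Nat.pow_le_pow_left (qT_le i) 2
      _ ≤ (2 * (1029 * A) ^ 4) ^ 2 :=
        Nat.pow_le_pow_left (Nat.mul_le_mul_left _ (Nat.pow_le_pow_left h4 4)) 2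
      _ = _ := by ring
  have hS : sT (c + 12) n ≤ (2 * (c + 13) + 1) * (l + 1) := by
    unfold sT
    rw [← hL, ← hl]
    nlinarith
  obtain ⟨W, hW⟩ : ∃ W, W = 4 * 1029 ^ 8 * A ^ 8 := ⟨_, rfl⟩
  have hW2 : 2 ≤ W := by
    rw [hW]
    calc 2 ≤ 4 * 1029 ^ 8 * 1 := by norm_num
      _ ≤ _ := Nat.mul_le_mul_left _ (Nat.one_le_pow _ _ hA1)
  obtain ⟨N, hN⟩ : ∃ N, N = (P - 1) * (2 * e) + 1 + S.card := ⟨_, rfl⟩
  have hN2 : N ≤ 2 * ((P - 1) * e + 1 + S.card) := by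
    have e1 : (P - 1) * (2 * e) = 2 * ((P - 1) * e) := by ring
    omega
  have h6 : sT (c + 12) n * (N * W) ≤ n := by
    calc sT (c + 12) n * (N * W) ≤
        (2 * (c + 13) + 1) * (l + 1) * ((2 * ((P - 1) * e + 1 + S.card)) * W) :=
          Nat.mul_le_mul hS (Nat.mul_le_mul_right _ hN2)
      _ = 2 * (2 * (c + 13) + 1) * (4 * 1029 ^ 8) * (l + 1) * ((P - 1) * e + 1 + S.card) *
          A ^ 8 := by rw [hW]; ring
      _ ≤ n := hcon.le
  have hSpos : 0 < sT (c + 12) n := Nat.succ_pos _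
  have h7 : N * W ≤ n / sT (c + 12) n :=
    (Nat.le_div_iff_mul_le hSpos).2 (by rw [mul_comm]; exact h6)
  have h8 : N * qT i ^ 2 ≤ n / sT (c + 12) n :=
    (Nat.mul_le_mul_left _ (h5.trans_eq hW.symm)).trans h7
  have hPN : P ≤ N := by
    have e1 : (P - 1) * 1 ≤ (P - 1) * (2 * e) := Nat.mul_le_mul_left _ (by omega)
    omega
  have hn : P ≤ n := by
    calc P ≤ N := hPN
      _ ≤ N * W := Nat.le_mul_of_pos_right _ (by omega)
      _ ≤ n / sT (c + 12) n := h7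
      _ ≤ n := Nat.div_le_self _ _
  have hPL : P < 2 ^ (L + 1) := lt_of_le_of_lt hn (Nat.lt_pow_succ_log_self (by norm_num) _)
  have hn2 : 2 ≤ n := by
    calc 2 ≤ W := hW2
      _ ≤ N * W := Nat.le_mul_of_pos_left _ (by omega)
      _ ≤ n / sT (c + 12) n := h7
      _ ≤ n := Nat.div_le_self _ _
  have hL1 : 1 ≤ L := Nat.log_pos (by norm_num) hn2
  have hiS : i < sT (c + 12) n := by
    have h9 : A ≤ (L + 2) ^ (c + 1) := by
      have h10 : s + P + e < 2 ^ (L ^ c + L + 1) := by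
        have e1 : 2 ^ (L ^ c + L + 1) = 2 ^ L ^ c * 2 ^ (L + 1) := by
          rw [← pow_add]; congr 1
        have e2 : 4 ≤ 2 ^ (L + 1) := by
          calc 4 = 2 ^ 2 := by norm_num
            _ ≤ _ := Nat.pow_le_pow_right (by norm_num) (by omega)
        have e3 : 2 ≤ 2 ^ L ^ c := by
          calc 2 = 2 ^ 1 := by norm_num
            _ ≤ _ := Nat.pow_le_pow_right (by norm_num) (Nat.one_le_pow _ _ hL1)
        rw [e1]
        nlinarith
      have h11 : Nat.log 2 (s + P + e) < L ^ c + L + 1 :=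
        Nat.log_lt_of_lt_pow (by omega) h10
      have h12 : L ^ c ≤ (L + 2) ^ c := Nat.pow_le_pow_left (by omega) c
      have h13 : 1 ≤ (L + 2) ^ c := Nat.one_le_pow _ _ (by omega)
      have h14 : (L + 2) ^ (c + 1) = (L + 2) ^ c * (L + 1) + (L + 2) ^ c := by ring
      have h15 : L + 1 ≤ (L + 2) ^ c * (L + 1) := Nat.le_mul_of_pos_left _ h13
      omega
    have h10 : L + 2 ≤ 2 ^ (l + 2) := by
      have e1 : L < 2 ^ (l + 1) := Nat.lt_pow_succ_log_self (by norm_num) _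
      have e2 : 2 ^ (l + 2) = 2 * 2 ^ (l + 1) := by rw [pow_succ 2 (l + 1)]; ring
      have e3 : 2 ≤ 2 ^ (l + 1) := by
        calc 2 = 2 ^ 1 := by norm_num
          _ ≤ _ := Nat.pow_le_pow_right (by norm_num) (by omega)
      omega
    have h11 : 512 * A ≤ 2 ^ (9 + (c + 1) * (l + 2)) := by
      rw [pow_add]
      refine Nat.mul_le_mul (by norm_num) ?_
      calc A ≤ (L + 2) ^ (c + 1) := h9
        _ ≤ (2 ^ (l + 2)) ^ (c + 1) := Nat.pow_le_pow_left h10 _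
        _ = _ := by rw [← pow_mul, mul_comm]
    have h12 : i ≤ 9 + (c + 1) * (l + 2) := (Nat.clog_le_iff_le_pow (by norm_num)).2 h11
    unfold sT
    rw [← hL, ← hl]
    have h13 : (c + 12 + 1) * (l + 2) = (c + 1) * (l + 2) + 12 * (l + 2) := by ring
    omega
  have hq : (qT i).Prime := qT_prime i
  obtain ⟨B, σ, g1, g2, -, g4⟩ := MS_sub (S := sT (c + 12)) (K := fun _ i => qT i ^ 2)
    (G := fun _ i => GB i) hiS (posB_inj (qT i)) (posB_lt (qT i)) (andrF_zero hq.pos)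
    (fun i' _ => Nat.pow_pos (qT_prime i').pos) (fun i' _ y hy => by
      unfold GB
      have e : (fun p => y (posB (qT i') p)) = fun _ => false := by
        funext p
        exact hy _ (posB_lt (qT i') p)
      rw [e]
      exact andrF_zero (qT_prime i').pos) (fun y => rfl) S (N := N) h8
  obtain ⟨M, d, hM, hF⟩ := rand_lower_size (L := LTB (c + 12)) (andrF_zero hq.pos) g2 g4 he hK g
    hg hgL (by omega)
  rw [Fintype.card_prod, Fintype.card_fin] at hM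
  have h9 := andr_size (aT i) (qT i) _ _ (by unfold aT; omega) hq (lt_qT i) (qT_le i) hF
  have h10 := AvgLowS_num hA1 (show 512 * A + 5 ≤ aT i by unfold aT; omega) (qT_le i) h1 hP1 hM
  omega

end Pool.Agent.TAvg
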