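import Mathlib
import Pool.Agent.TOpt.SPOps

/-!
# Span programs are closed under monotone formulas
-/

set_option autoImplicit false

namespace Pool.Agent.TAvg

open Pool.Agent.FewNeg Pool.Agent.TOpt

variable {𝔽 : Type} [Field 𝔽] {ι κ : Type}

theorem HasSP.md_comp {d s : ℕ} {φ : BF κ} (h : MD d φ) (g : κ → BF ι)
    (hg : ∀ k, HasSP 𝔽 s (g k)) : HasSP 𝔽 (2 ^ d * s) (fun x => φ fun k => g k x) := by
  induction h with
  | var k => simpa using hg k
  | const b => exact (HasSP.const b).mono (Nat.zero_le _)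
  | and _ _ hf hg =>
    refine (hf.and hg).mono (le_of_eq ?_)
    rw [pow_succ]
    ring
  | or _ _ hf hg =>
    refine (hf.or hg).mono (le_of_eq ?_)
    rw [pow_succ]
    ring
  | succ _ ih =>
    refine ih.mono ?_
    rw [pow_succ]
    nlinarith [Nat.zero_le (2 ^ ‹ℕ› * s)]

end Pool.Agent.TAvg
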