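import Mathlib
import Pool.Agent.TAvg.RandElim
import Pool.Agent.TAvg.Sample
import Pool.Agent.TAvg.MdComp
import Pool.Agent.TOpt.NNF

/-!
# The lower bound for randomised games (span programs)

PACKAGE. Prove `rand_lower` from `rand_of_copies`, `exists_sample`, `HasSP.md_comp` (other
packages), `HasSP.or_list`, `HasSP.subst` and `MD.thr`. Compare `gdecides_lower` and
`gmono_of_copies` in `Pool/Agent/TOpt/SPGame.lean`.

PROOF. Take the games `G k` from `hg k`, and let `x₀ p = Sum.elim (fun _ => false) id (σ p)`. The game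
`(G k x₀).sub σ` has on `y : Fin N × κ → Bool` the value `g k (fun p => Sum.elim y id (σ p))`, since
this input agrees with `x₀` on `S` (as in `gdecides_lower`). By `hgL` and `hL` the hypothesis `hf` of
`rand_of_copies` holds (class `𝒜 = HasSP 𝔽 s`, `HasSP.monotone`, `guses_sub`, `HasSP.subst`). Let
`T k u = (l k).any fun h => h (upd z a u)`; `T k` is in `HasSP 𝔽 (P * s)` (`HasSP.or_list` and
`HasSP.subst` as in `gmono_of_copies`). `exists_sample` with `U = κ → Bool` (of cardinality
`2 ^ card κ`) gives `M, θ, ρ`, and `F u = decide (θ ≤ #{j | T (ρ j) u = true})`. The threshold function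
of `Fin M` has a monotone formula of depth `(r + 1) ^ 2` (`MD.thr` with `A = univ`, `M ≤ 2 ^ r`), so
`HasSP.md_comp` gives the claim.
-/

set_option autoImplicit false

namespace Pool.Agent.TAvg

open Pool.Agent.FewNeg Pool.Agent.FewG Pool.Agent.CGame Pool.Agent.TOpt

theorem rand_lower {𝔽 : Type} [Field 𝔽] {κ : Type} [Fintype κ] [DecidableEq κ]
    {L : Set (List Bool)} {n N : ℕ} {F : BF κ}
    (hF0 : F (fun _ => false) = false) {S : Finset (Fin n)} {B : Finset (Fin N)}
    {σ : Fin n → (Fin N × κ) ⊕ Bool} (hσ : ∀ p ∈ S, σ p = Sum.inr false)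
    (hL : ∀ y : Fin N × κ → Bool, slice L n (fun p => Sum.elim y id (σ p)) = orC B F y)
    {s P e K : ℕ} (he : 1 ≤ e) (hK : 0 < K) (g : Fin K → BF (Fin n))
    (hg : ∀ k, GDecides (HasSP 𝔽 s) S P (g k))
    (hgL : ∀ x, (e + 1) * K ≤ 2 * e * (Finset.univ.filter fun k => g k x = slice L n x).card)
    (hB : (P - 1) * (2 * e) + 1 ≤ B.card) {r : ℕ}
    (hr : 64 * e ^ 2 * (Fintype.card κ + 1) ≤ 2 ^ r) :
    HasSP 𝔽 (2 ^ ((r + 1) ^ 2) * (P * s)) F := by
  classical
  choose G h1 h2 h3 using hg
  set x₀ : Fin n → Bool := fun p => Sum.elim (fun _ : Fin N × κ => false) id (σ p) with hx₀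
  have h𝒜 : ∀ f : BF (Fin N × κ), HasSP 𝔽 s f → Monotone f := fun f hf => hf.monotone
  have hval : ∀ k y, ((G k x₀).sub σ).val y = g k (fun p => Sum.elim y id (σ p)) := by
    intro k y
    rw [Game.sub_val, ← h3]
    congr 1
    refine h1 k _ _ fun i hi => ?_
    rw [hx₀]
    simp only [hσ i hi]
    rfl
  obtain ⟨a, z, l, hl, hp, hn⟩ := rand_of_copies h𝒜 hF0 B hK he (fun k => (G k x₀).sub σ)
    (fun k => guses_sub σ (fun f hf => hf.subst σ) (h2 k x₀)) (fun y => by
      have := hgL (fun p => Sum.elim y id (σ p))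
      rw [hL] at this
      simpa only [hval] using this) hB
  set T : Fin K → (κ → Bool) → Bool := fun k u => (l k).any fun h => h (upd z a u) with hTdef
  have hT : ∀ k, HasSP 𝔽 (P * s) (T k) := by
    intro k
    have hsub : ∀ {g : BF (Fin N × κ)}, HasSP 𝔽 s g → HasSP 𝔽 s (fun y => g (upd z a y)) := by
      intro g hg
      have h4 := hg.subst
        (fun p : Fin N × κ => ((if p.1 = a then Sum.inl p.2 else Sum.inr (z p)) : κ ⊕ Bool))
      have e : (fun y : κ → Bool => g fun p => Sum.elim y id
          ((if p.1 = a then Sum.inl p.2 else Sum.inr (z p)) : κ ⊕ Bool)) =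
          fun y => g (upd z a y) := by
        funext u
        have : (upd z a u) = fun p => Sum.elim u id
            ((if p.1 = a then Sum.inl p.2 else Sum.inr (z p)) : κ ⊕ Bool) := by
          funext p
          simp only [upd]
          split_ifs <;> rfl
        rw [this]
      rw [← e]
      exact h4
    refine (HasSP.or_list (𝔽 := 𝔽) (s := s) (F := T k)
      ((l k).map fun g y => g (upd z a y)) ?_ ?_).mono ?_
    · intro g hg
      obtain ⟨g', hg', rfl⟩ := List.mem_map.1 hg
      exact hsub ((hl k).2 g' hg')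
    · intro u
      rw [hTdef]
      simp only [List.any_eq_true]
      constructor
      · rintro ⟨g, hg, hu⟩
        exact ⟨_, List.mem_map.2 ⟨g, hg, rfl⟩, hu⟩
      · rintro ⟨g, hg, hu⟩
        obtain ⟨g', hg', rfl⟩ := List.mem_map.1 hg
        exact ⟨g', hg', hu⟩
    · rw [List.length_map]
      exact Nat.mul_le_mul_right _ (hl k).1
  obtain ⟨M, θ, ρ, hM, hs⟩ := exists_sample (N := Fintype.card κ) hK he T (by
    rw [Fintype.card_fun, Fintype.card_bool])
  have hthr := MD.thr r θ (Finset.univ : Finset (Fin M)) (by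
    rw [Finset.card_univ, Fintype.card_fin]
    exact hM.trans hr)
  have hcomp := HasSP.md_comp (𝔽 := 𝔽) hthr (fun j => T (ρ j)) (fun j => hT (ρ j))
  have hF : F = fun u => decide (θ ≤ (Finset.univ.filter fun j => T (ρ j) u = true).card) := by
    funext u
    rcases hu : F u with _ | _
    · symm
      rw [decide_eq_false_iff_not, not_le]
      exact (hs u).2 (hn u hu)
    · symm
      rw [decide_eq_true_iff]
      exact (hs u).1 (hp u hu)
  rw [hF]
  exact hcomp

end Pool.Agent.TAvg
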