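import Mathlib
import Pool.Agent.TAvg.Minimax
import Pool.Agent.TAvg.RandLow
import Pool.Agent.TOpt.FinC

/-!
# The lower bound on average

PACKAGE. Prove `LTC_avg` from `minimax_bool`, `rand_lower`, `exists_hard` and `slice_LTC_sub` (in
`Pool/Agent/TOpt/FinC.lean`). Follow the proof of `LTC_lower` in that file; helper lemmas allowed,
keep the statement.

PROOF. Let `C₀` be the constant of `exists_hard` and `C` large. Suppose the hypothesis holds and there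
is no hard distribution; `minimax_bool` (`X = Fin n → Bool`) gives `K > 0` and `g k` with
`GDecides (HasSP 𝔽 s) S P (g k)`, so `P ≥ 1` (`guses_pos`). Let `Λ = log n + log e + 1`,
`N₀ = (P - 1) e + 1 + S.card`, `a = log s + 1`, `C Λ ^ C N₀ a < n`. So `P ≤ N₀ < n`, `log s < n`. Let
`r = 10 Λ` (so that `64 e ^ 2 (n + 1) ≤ 2 ^ r`: `e < 2 ^ Λ`, `n + 1 ≤ 2 ^ Λ`, `64 ≤ 2 ^ (6 Λ)`),
`D = (r + 1) ^ 2 + log s + log P + 2`, so `2 ^ ((r + 1) ^ 2) * (P * s) < 2 ^ D`. Take `i, J, ρ, F` from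
`exists_hard D`. `D + 1 ≤ 130 Λ ^ 2 a`, and `log (D + 1) + 1 ≤ 20 Λ` or so (as
`D + 1 ≤ 130 Λ ^ 2 * (n + 1)`), so `2 ^ i ≤ C₀ * 130 Λ ^ 2 a * (20 Λ) ^ C₀ < n` and `i < log n + 1`,
`bl i ≤ 2 ^ i * 7 Λ ≤ n`. With `N = (P - 1) (2 e) + 1 + S.card ≤ 2 N₀` we have
`N * bl i ≤ n / (log n + 1)` for `C` large. `slice_LTC_sub` gives `B`, `σ` for the function `bF i` of
`κ = Fin (bl i)`; `bF i` of zeros is `false` (`blockF_zero`). `rand_lower` gives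
`HasSP 𝔽 (2 ^ ((r + 1) ^ 2) * (P * s)) (bF i)`, and with `HasSP.subst (fun a => ρ a.val)` and
`blockF_congr` the same for `F` (`bF i (fun a => Sum.elim z id (ρ a.val)) = F z`). So
`2 ^ D ≤ 2 ^ ((r + 1) ^ 2) * (P * s)`, a contradiction.
-/

set_option autoImplicit false

namespace Pool.Agent.TAvg

open Pool.Agent.FewNeg Pool.Agent.FewG Pool.Agent.CGame Pool.Agent.TOpt

private theorem AvgLow_D {Λ a P s n e : ℕ} (hΛ : Λ = Nat.log 2 n + Nat.log 2 e + 1)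
    (ha : a = Nat.log 2 s + 1) (hP : Nat.log 2 P + 1 ≤ Λ) :
    (10 * Λ + 1) ^ 2 + Nat.log 2 s + Nat.log 2 P + 2 + 1 ≤ 130 * Λ ^ 2 * a := by
  have h1 : 1 ≤ Λ := by omega
  have h2 : 1 ≤ a := by omega
  obtain ⟨x, rfl⟩ : ∃ x, Λ = x + 1 := ⟨Λ - 1, by omega⟩
  obtain ⟨y, rfl⟩ : ∃ y, a = y + 1 := ⟨a - 1, by omega⟩
  have h3 : (10 * (x + 1) + 1) ^ 2 + y + x + 2 + 1 ≤ 130 * (x + 1) ^ 2 * (y + 1) := by
    nlinarith [Nat.zero_le (x * y), Nat.zero_le (x ^ 2 * y)]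
  omega

private theorem AvgLow_log {Λ a n X : ℕ} (hn : n < 2 ^ Λ) (han : a ≤ n) (hΛ : 1 ≤ Λ)
    (hX : X ≤ 130 * Λ ^ 2 * a) : Nat.log 2 X + 1 ≤ 11 * Λ := by
  have h1 : Λ < 2 ^ Λ := Nat.lt_two_pow_self
  have h2 : X < 2 ^ (8 + 3 * Λ) := by
    calc X ≤ 130 * Λ ^ 2 * a := hX
      _ ≤ 130 * (2 ^ Λ) ^ 2 * 2 ^ Λ :=
        Nat.mul_le_mul (Nat.mul_le_mul_left _ (Nat.pow_le_pow_left h1.le 2)) (by omega)
      _ < 2 ^ 8 * (2 ^ Λ) ^ 2 * 2 ^ Λ := by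
        have : 0 < (2 ^ Λ) ^ 2 * 2 ^ Λ := by positivity
        nlinarith
      _ = 2 ^ (8 + 3 * Λ) := by
        rw [pow_add, ← pow_mul, mul_assoc, ← pow_add]
        congr 2
        ring
  have h3 : Nat.log 2 X < 8 + 3 * Λ := by
    rcases Nat.eq_zero_or_pos X with rfl | hX0
    · simp
    · exact Nat.log_lt_of_lt_pow (by omega) h2
  omega

private theorem AvgLow_r {Λ e n b : ℕ} (he : e ≤ 2 ^ Λ) (hn : n + 1 ≤ 2 ^ Λ) (hb : b ≤ n) (hΛ : 1 ≤ Λ) :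
    64 * e ^ 2 * (b + 1) ≤ 2 ^ (10 * Λ) := by
  calc 64 * e ^ 2 * (b + 1) ≤ (2 ^ Λ) ^ 6 * (2 ^ Λ) ^ 2 * 2 ^ Λ := by
        refine Nat.mul_le_mul (Nat.mul_le_mul ?_ (Nat.pow_le_pow_left he 2)) (by omega)
        calc 64 = (2 ^ 1) ^ 6 := by norm_num
          _ ≤ (2 ^ Λ) ^ 6 := Nat.pow_le_pow_left (Nat.pow_le_pow_right (by norm_num) hΛ) 6
    _ = 2 ^ (9 * Λ) := by
        rw [← pow_add, ← pow_succ, ← pow_mul]
        congr 1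
        ring
    _ ≤ 2 ^ (10 * Λ) := Nat.pow_le_pow_right (by norm_num) (by omega)

theorem LTC_avg : ∃ C : ℕ, ∀ (𝔽 : Type) [Field 𝔽] (n e : ℕ) (S : Finset (Fin n)) (s P : ℕ),
    1 ≤ e → C * (Nat.log 2 n + Nat.log 2 e + 1) ^ C * ((P - 1) * e + 1 + S.card) *
      (Nat.log 2 s + 1) < n → HardDist (GDecides (HasSP 𝔽 s) S P) (slice LTC n) e := by
  obtain ⟨C₀, hC₀⟩ := exists_hard
  obtain ⟨c, hc⟩ : ∃ c, c = C₀ * 130 * 11 ^ C₀ := ⟨_, rfl⟩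
  refine ⟨14 * c + C₀ + 4, fun 𝔽 _ n e S s P he hcon => ?_⟩
  by_contra hnot
  obtain ⟨K, g, hK, hg, hgL⟩ := minimax_bool _ _ he hnot
  have hP1 : 1 ≤ P := by
    obtain ⟨G, -, h2, -⟩ := hg ⟨0, hK⟩
    exact guses_pos (h2 fun _ => false)
  obtain ⟨C, hC⟩ : ∃ C, C = 14 * c + C₀ + 4 := ⟨_, rfl⟩
  obtain ⟨Λ, hΛ⟩ : ∃ Λ, Λ = Nat.log 2 n + Nat.log 2 e + 1 := ⟨_, rfl⟩
  obtain ⟨a, ha⟩ : ∃ a, a = Nat.log 2 s + 1 := ⟨_, rfl⟩
  obtain ⟨N₀, hN₀⟩ : ∃ N₀, N₀ = (P - 1) * e + 1 + S.card := ⟨_, rfl⟩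
  rw [← hC, ← hΛ, ← ha, ← hN₀] at hcon
  have hΛ1 : 1 ≤ Λ := by omega
  have ha1 : 1 ≤ a := by omega
  have hN1 : 1 ≤ N₀ := by omega
  have hCΛ : 1 ≤ C * Λ ^ C := Nat.mul_pos (by omega) (Nat.pow_pos hΛ1)
  have hPN : P ≤ N₀ := by
    have e1 : (P - 1) * 1 ≤ (P - 1) * e := Nat.mul_le_mul_left _ he
    omega
  have hNn : N₀ ≤ n := by
    calc N₀ = 1 * N₀ * 1 := by ring
      _ ≤ C * Λ ^ C * N₀ * a := Nat.mul_le_mul (Nat.mul_le_mul_right _ hCΛ) ha1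
      _ ≤ n := hcon.le
  have han : a ≤ n := by
    calc a = 1 * 1 * a := by ring
      _ ≤ C * Λ ^ C * N₀ * a := Nat.mul_le_mul_right _ (Nat.mul_le_mul hCΛ hN1)
      _ ≤ n := hcon.le
  have hPn : P ≤ n := hPN.trans hNn
  have hlogP : Nat.log 2 P + 1 ≤ Λ := by
    have := Nat.log_mono_right (b := 2) hPn
    omega
  have hn2 : n < 2 ^ Λ :=
    (Nat.lt_pow_succ_log_self (b := 2) (by norm_num) n).trans_le
      (Nat.pow_le_pow_right (by norm_num) (by omega))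
  have he2 : e < 2 ^ Λ :=
    (Nat.lt_pow_succ_log_self (b := 2) (by norm_num) e).trans_le
      (Nat.pow_le_pow_right (by norm_num) (by omega))
  obtain ⟨i, J, ρ, F, h1, h2, h3, h4⟩ :=
    hC₀ ((10 * Λ + 1) ^ 2 + Nat.log 2 s + Nat.log 2 P + 2)
  have hD1 := AvgLow_D (s := s) (P := P) hΛ ha hlogP
  have hD2 := AvgLow_log hn2 han hΛ1 hD1
  have h5 : 2 ^ i ≤ c * Λ ^ (C₀ + 2) * a := by
    calc 2 ^ i ≤ _ := h1
      _ ≤ C₀ * (130 * Λ ^ 2 * a) * (11 * Λ) ^ C₀ :=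
        Nat.mul_le_mul (Nat.mul_le_mul_left _ hD1) (Nat.pow_le_pow_left hD2 _)
      _ = c * Λ ^ (C₀ + 2) * a := by
        rw [hc, mul_pow, pow_add]
        ring
  have hpow : Λ ^ (C₀ + 4) ≤ Λ ^ C := Nat.pow_le_pow_right hΛ1 (by omega)
  have hbig : N₀ * (14 * c * Λ ^ (C₀ + 4) * a) ≤ n := by
    calc N₀ * (14 * c * Λ ^ (C₀ + 4) * a) = (14 * c) * Λ ^ (C₀ + 4) * N₀ * a := by ring
      _ ≤ C * Λ ^ C * N₀ * a :=
        Nat.mul_le_mul_right _ (Nat.mul_le_mul_right _ (Nat.mul_le_mul (by omega) hpow))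
      _ ≤ n := hcon.le
  have hi : i < Nat.log 2 n + 1 := by
    by_contra hcn
    have e1 : n < 2 ^ (Nat.log 2 n + 1) := Nat.lt_pow_succ_log_self (by norm_num) n
    have e2 : 2 ^ (Nat.log 2 n + 1) ≤ 2 ^ i := Nat.pow_le_pow_right (by norm_num) (by omega)
    have e3 : c * Λ ^ (C₀ + 2) * a ≤ N₀ * (14 * c * Λ ^ (C₀ + 4) * a) := by
      calc c * Λ ^ (C₀ + 2) * a ≤ 14 * c * Λ ^ (C₀ + 4) * a :=
            Nat.mul_le_mul_right _ (Nat.mul_le_mul (by omega)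
              (Nat.pow_le_pow_right hΛ1 (by omega)))
        _ ≤ _ := Nat.le_mul_of_pos_left _ hN1
    omega
  have hbl : bl i ≤ 7 * c * Λ ^ (C₀ + 3) * a := by
    calc bl i = 2 ^ i * (6 * i + 1) := rfl
      _ ≤ (c * Λ ^ (C₀ + 2) * a) * (7 * Λ) := Nat.mul_le_mul h5 (by omega)
      _ = 7 * c * Λ ^ (C₀ + 3) * a := by ring
  obtain ⟨N, hN⟩ : ∃ N, N = (P - 1) * (2 * e) + 1 + S.card := ⟨_, rfl⟩
  have hN2 : N ≤ 2 * N₀ := by
    have e1 : (P - 1) * (2 * e) = 2 * ((P - 1) * e) := by ring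
    omega
  have h6 : N * bl i * (Nat.log 2 n + 1) ≤ n := by
    calc N * bl i * (Nat.log 2 n + 1) ≤ 2 * N₀ * (7 * c * Λ ^ (C₀ + 3) * a) * Λ :=
          Nat.mul_le_mul (Nat.mul_le_mul hN2 hbl) (by omega)
      _ = N₀ * (14 * c * Λ ^ (C₀ + 4) * a) := by ring
      _ ≤ n := hbig
  have hN1' : 1 ≤ N := by omega
  have hbn : bl i ≤ n := by
    calc bl i = 1 * bl i * 1 := by ring
      _ ≤ N * bl i * (Nat.log 2 n + 1) :=
        Nat.mul_le_mul (Nat.mul_le_mul_right _ hN1') (by omega)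
      _ ≤ n := h6
  have ht : N * bl i ≤ n / (Nat.log 2 n + 1) :=
    (Nat.le_div_iff_mul_le (by omega)).2 h6
  obtain ⟨B, σ, g1, g2, g3⟩ := slice_LTC_sub hi S ht
  have hF0 : bF i (fun _ => false) = false :=
    blockF_zero i _ fun p hp => by rw [dif_pos hp]
  have h7 : HasSP 𝔽 (2 ^ ((10 * Λ + 1) ^ 2) * (P * s)) (bF i) :=
    rand_lower hF0 g2 g3 he hK g hg hgL (by omega) (by
      rw [Fintype.card_fin]
      exact AvgLow_r he2.le (by omega) hbn hΛ1)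
  have h8 := h7.subst (fun a : Fin (bl i) => ρ a.val)
  have h9 : (fun z : J → Bool => bF i fun a => Sum.elim z id (ρ a.val)) = F := by
    funext z
    rw [← h3]
    exact blockF_congr i fun p hp => by rw [dif_pos hp]
  rw [h9] at h8
  have h10 := h4 𝔽 _ h8
  have h11 : P < 2 ^ (Nat.log 2 P + 1) := Nat.lt_pow_succ_log_self (by norm_num) _
  have h12 : s < 2 ^ (Nat.log 2 s + 1) := Nat.lt_pow_succ_log_self (by norm_num) _
  have h13 : 2 ^ ((10 * Λ + 1) ^ 2) * (P * s) <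
      2 ^ ((10 * Λ + 1) ^ 2 + Nat.log 2 s + Nat.log 2 P + 2) := by
    calc 2 ^ ((10 * Λ + 1) ^ 2) * (P * s) <
        2 ^ ((10 * Λ + 1) ^ 2) * (2 ^ (Nat.log 2 P + 1) * 2 ^ (Nat.log 2 s + 1)) :=
          Nat.mul_lt_mul_of_pos_left (Nat.mul_lt_mul'' h11 h12) (by positivity)
      _ = _ := by
        rw [← pow_add, ← pow_add]
        congr 1
        omega
  omega

end Pool.Agent.TAvg
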