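import Mathlib
import Pool.Agent.TOpt.FewNot

/-!
# Monotone functions on an interval of weights

PACKAGE. Prove `few_not_block` (helper lemmas allowed, keep the statement) from `thick_slice` and the
theorems about `NForm`; compare `FewNot_claim` in `Pool/Agent/TOpt/FewNot.lean`.

PROOF. (1) LEMMA. Let `D' ≥ (r + 1) ^ 2`, `b : ℕ → ℕ` monotone, and `h : ℕ → BF ι` with `MD D' (h j)`
for `j < 2 ^ t`. There is `g` with `NForm t (D' + 2 t) g` and `g x = h j x` whenever `j < 2 ^ t` and
`b j ≤ wt x < b (j + 1)`. Induction on `t` (for all `b`, `h`): `t = 0`: `g = h 0`. Step: `g₂` for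
`b`, `h`, and `g₁` for `b (· + 2 ^ t)`, `h (· + 2 ^ t)`, `u x = decide (b (2 ^ t) ≤ wt x)` (`MD.thr`), and
`NForm.ite`.
(2) `t = 0`: the function is the constant `c` (`2 ^ 0 - 1 = 0`). Let `t ≥ 1`, `W = 2 ^ t - 1 ≥ 1`. For
every `j` let `k_j` be the function from `thick_slice` which agrees with `f` if
`a + j m ≤ wt x < a + (j + 1) m`; depth `m D + (r + 1) ^ 2 + 1`.
`c = false`: `b 0 = 0`, `b j = a + j m` for `1 ≤ j ≤ W`, `b j` larger than `card ι` for `j > W`;
`h 0 x = decide (a ≤ wt x) && k_0 x`, `h j = k_j` for `1 ≤ j < W`, `h W = false`.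
`c = true`: `b 0 = 0`, `b j = a + (j - 1) m` for `1 ≤ j ≤ W`, `b j` larger than `card ι` for `j > W`;
`h 0 = true`, `h j = k_(j-1)` for `1 ≤ j < W`, `h W x = decide (a + W m ≤ wt x) || k_(W-1) x`.
In both cases `g x = if a ≤ wt x ∧ wt x < a + W m then f x else c`. Finally `NForm.computes`.
-/

set_option autoImplicit false

namespace Pool.Agent.TAvg

open Pool.Agent.FewNeg Pool.Agent.TOpt

/-- Functions of small depth on consecutive intervals of weights. -/
private theorem BlockUp_glue {ι : Type} [Fintype ι] [DecidableEq ι] {r D' : ℕ}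
    (hr : Fintype.card ι ≤ 2 ^ r) (hD' : (r + 1) ^ 2 ≤ D') (t : ℕ) :
    ∀ (b : ℕ → ℕ) (h : ℕ → BF ι), Monotone b → (∀ j, MD D' (h j)) →
      ∃ g : BF ι, NForm t (D' + 2 * t) g ∧
        ∀ j, j < 2 ^ t → ∀ x, b j ≤ wt x → wt x < b (j + 1) → g x = h j x := by
  induction t with
  | zero =>
    intro b h _ hh
    refine ⟨h 0, NForm.of_md (hh 0), fun j hj x _ _ => ?_⟩
    have : j = 0 := by
      rw [pow_zero] at hj
      omega
    rw [this]
  | succ t ih =>
    intro b h hb hh
    obtain ⟨g₂, h3, h4⟩ := ih b h hb hh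
    obtain ⟨g₁, h1, h2⟩ := ih (fun j => b (j + 2 ^ t)) (fun j => h (j + 2 ^ t))
      (fun i j hij => hb (Nat.add_le_add_right hij _)) (fun j => hh _)
    have hu : MD (D' + 2 * t) (fun x : ι → Bool => decide (b (2 ^ t) ≤
        ((Finset.univ : Finset ι).filter fun i => x i = true).card)) :=
      (MD.thr r (b (2 ^ t)) (Finset.univ : Finset ι)
        (by rw [Finset.card_univ]; exact hr)).mono (by omega)
    refine ⟨fun x => if decide (b (2 ^ t) ≤
      ((Finset.univ : Finset ι).filter fun i => x i = true).card) = true then g₁ x else g₂ x,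
      NForm.ite hu h1 h3 fun x => rfl, fun j hj x h5 h6 => ?_⟩
    show (if decide (b (2 ^ t) ≤ wt x) = true then g₁ x else g₂ x) = h j x
    have e : 2 ^ (t + 1) = 2 ^ t + 2 ^ t := by ring
    rcases Nat.lt_or_ge j (2 ^ t) with hjt | hjt
    · have h7 : b (j + 1) ≤ b (2 ^ t) := hb hjt
      have h8 : ¬ b (2 ^ t) ≤ wt x := by omega
      rw [if_neg (by simpa using h8)]
      exact h4 j hjt x h5 h6
    · obtain ⟨j', rfl⟩ := Nat.exists_eq_add_of_le hjt
      have h7 : b (2 ^ t) ≤ b (2 ^ t + j') := hb (Nat.le_add_right _ _)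
      have h8 : b (2 ^ t) ≤ wt x := h7.trans h5
      rw [if_pos (by simpa using h8)]
      rw [Nat.add_comm (2 ^ t) j'] at h5 h6 ⊢
      refine h2 j' (by omega) x h5 ?_
      rw [show j' + 1 + 2 ^ t = j' + 2 ^ t + 1 by ring]
      exact h6

/-- The index of the interval of a weight. -/
private theorem BlockUp_index {a m W w : ℕ} (hm : 1 ≤ m) (h1 : a ≤ w) (h2 : w < a + W * m) :
    ∃ j, j < W ∧ a + j * m ≤ w ∧ w < a + j * m + m := by
  refine ⟨(w - a) / m, (Nat.div_lt_iff_lt_mul hm).2 (by omega), ?_, ?_⟩
  · have := Nat.div_mul_le_self (w - a) m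
    omega
  · have h3 := Nat.lt_mul_div_succ (w - a) hm
    rw [Nat.mul_succ, Nat.mul_comm] at h3
    omega

theorem few_not_block {ι : Type} [Fintype ι] [DecidableEq ι] {f : BF ι} (hf : Monotone f)
    {D r : ℕ} {φ : BF (ι ⊕ ι)} (hφ : MD D φ) (hfφ : ∀ x, f x = φ (Sum.elim x fun i => !(x i)))
    (hr : Fintype.card ι ≤ 2 ^ r) (m t a : ℕ) (hm : 1 ≤ m) (c : Bool) :
    ∃ s, Computes s ((t + 1) * (m * D + (r + 1) ^ 2 + 2 + 2 * t)) t
      (fun x => if a ≤ wt x ∧ wt x < a + (2 ^ t - 1) * m then f x else c) := by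
  rcases Nat.eq_zero_or_pos t with ht | ht
  · subst ht
    have e : (fun x : ι → Bool =>
        if a ≤ wt x ∧ wt x < a + (2 ^ 0 - 1) * m then f x else c) = fun _ => c := by
      funext x
      rw [if_neg]
      rintro ⟨h1, h2⟩
      simp only [pow_zero, Nat.sub_self, Nat.zero_mul, Nat.add_zero] at h2
      omega
    rw [e]
    have h1 : MD (m * D + (r + 1) ^ 2 + 2 + 2 * 0) (fun _ : ι → Bool => c) :=
      (MD.const c).mono (Nat.zero_le _)
    exact (NForm.of_md h1).computes
  obtain ⟨W, hW⟩ : ∃ W, W = 2 ^ t - 1 := ⟨_, rfl⟩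
  have h2t : 2 ≤ 2 ^ t := by
    calc 2 = 2 ^ 1 := (pow_one 2).symm
      _ ≤ 2 ^ t := Nat.pow_le_pow_right (by norm_num) ht
  have hW1 : 1 ≤ W := by omega
  have hWt : W < 2 ^ t := by omega
  rw [← hW]
  choose k hk1 hk2 using fun j : ℕ => thick_slice hf hφ hfφ hr (a + j * m) m hm
  have hk1' : ∀ j, MD (m * D + (r + 1) ^ 2 + 2) (k j) := fun j => (hk1 j).mono (by omega)
  have hthr : ∀ n, MD (m * D + (r + 1) ^ 2 + 1) (fun x : ι → Bool => decide (n ≤ wt x)) :=
    fun n => (MD.thr r n (Finset.univ : Finset ι)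
      (by rw [Finset.card_univ]; exact hr)).mono (by omega)
  have hwt : ∀ x : ι → Bool, wt x ≤ Fintype.card ι := fun x => by
    rw [← Finset.card_univ]
    exact Finset.card_le_card (Finset.filter_subset _ _)
  have hjm : ∀ {i j : ℕ}, i ≤ j → i * m ≤ j * m := fun h => Nat.mul_le_mul_right _ h
  cases c with
  | false =>
    obtain ⟨b, hb⟩ : ∃ b : ℕ → ℕ, b = fun j => if j = 0 then 0 else if j ≤ W then a + j * m else
        a + W * m + Fintype.card ι + 1 := ⟨_, rfl⟩
    obtain ⟨h, hh⟩ : ∃ h : ℕ → BF ι, h = fun j => if j = 0 then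
        (fun x => decide (a ≤ wt x) && k 0 x) else if j < W then k j else fun _ => false :=
      ⟨_, rfl⟩
    have hb0 : b 0 = 0 := by rw [hb]; simp
    have hb1 : ∀ j, 1 ≤ j → j ≤ W → b j = a + j * m := by
      intro j hj1 hj2
      rw [hb]
      simp only
      rw [if_neg (by omega), if_pos hj2]
    have hb2 : ∀ j, W < j → b j = a + W * m + Fintype.card ι + 1 := by
      intro j hj
      rw [hb]
      simp only
      rw [if_neg (by omega), if_neg (by omega)]
    have hbm : Monotone b := by
      intro i j hij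
      rcases Nat.eq_zero_or_pos i with hi | hi
      · rw [hi, hb0]
        exact Nat.zero_le _
      rcases Nat.lt_or_ge W j with hj | hj
      · rw [hb2 j hj]
        rcases Nat.lt_or_ge W i with hi' | hi'
        · rw [hb2 i hi']
        · rw [hb1 i hi hi']
          have := hjm hi'
          omega
      · rw [hb1 i hi (by omega), hb1 j (by omega) hj]
        have := hjm hij
        omega
    have hhm : ∀ j, MD (m * D + (r + 1) ^ 2 + 2) (h j) := by
      intro j
      rw [hh]
      simp only
      split_ifs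
      · exact MD.and (hthr a) (hk1 0)
      · exact hk1' j
      · exact (MD.const false).mono (Nat.zero_le _)
    obtain ⟨g, hg1, hg2⟩ := BlockUp_glue hr (by omega) t b h hbm hhm
    have hg : g = fun x => if a ≤ wt x ∧ wt x < a + W * m then f x else false := by
      funext x
      have hWm : m ≤ W * m := Nat.le_mul_of_pos_left m hW1
      rcases Nat.lt_or_ge (wt x) (a + m) with h1 | h1
      · rw [hg2 0 (by omega) x (by rw [hb0]; exact Nat.zero_le _)
          (by rw [hb1 (0 + 1) (by omega) (by omega)]; omega)]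
        rw [hh]
        simp only [if_true]
        by_cases h2 : a ≤ wt x
        · rw [if_pos ⟨h2, by omega⟩, decide_eq_true h2, Bool.true_and]
          exact hk2 0 x (by omega) (by omega)
        · rw [if_neg fun h => h2 h.1, decide_eq_false h2, Bool.false_and]
      · rcases Nat.lt_or_ge (wt x) (a + W * m) with h2 | h2
        · obtain ⟨j, hj1, hj2, hj3⟩ := BlockUp_index hm (by omega) h2
          have hj0 : 1 ≤ j := by
            rcases Nat.eq_zero_or_pos j with h | h
            · rw [h] at hj3
              omega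
            · exact h
          have e : (j + 1) * m = j * m + m := by ring
          rw [hg2 j (by omega) x (by rw [hb1 j hj0 hj1.le]; exact hj2)
            (by rw [hb1 (j + 1) (by omega) (by omega), e]; omega)]
          rw [if_pos ⟨by omega, h2⟩, hh]
          simp only
          rw [if_neg (by omega), if_pos hj1]
          exact hk2 j x hj2 hj3
        · rw [hg2 W hWt x (by rw [hb1 W hW1 le_rfl]; exact h2)
            (by rw [hb2 (W + 1) (by omega)]; have := hwt x; omega)]
          rw [if_neg (by omega), hh]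
          simp only
          rw [if_neg (by omega), if_neg (by omega)]
    rw [← hg]
    exact hg1.computes
  | true =>
    obtain ⟨b, hb⟩ : ∃ b : ℕ → ℕ, b = fun j => if j = 0 then 0 else if j ≤ W then a + (j - 1) * m
        else a + W * m + Fintype.card ι + 1 := ⟨_, rfl⟩
    obtain ⟨h, hh⟩ : ∃ h : ℕ → BF ι, h = fun j => if j = 0 then (fun _ => true) else if j < W then
        k (j - 1) else fun x => decide (a + W * m ≤ wt x) || k (W - 1) x := ⟨_, rfl⟩
    have hb0 : b 0 = 0 := by rw [hb]; simp
    have hb1 : ∀ j, 1 ≤ j → j ≤ W → b j = a + (j - 1) * m := by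
      intro j hj1 hj2
      rw [hb]
      simp only
      rw [if_neg (by omega), if_pos hj2]
    have hb2 : ∀ j, W < j → b j = a + W * m + Fintype.card ι + 1 := by
      intro j hj
      rw [hb]
      simp only
      rw [if_neg (by omega), if_neg (by omega)]
    have hbm : Monotone b := by
      intro i j hij
      rcases Nat.eq_zero_or_pos i with hi | hi
      · rw [hi, hb0]
        exact Nat.zero_le _
      rcases Nat.lt_or_ge W j with hj | hj
      · rw [hb2 j hj]
        rcases Nat.lt_or_ge W i with hi' | hi'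
        · rw [hb2 i hi']
        · rw [hb1 i hi hi']
          have := hjm (show i - 1 ≤ W by omega)
          omega
      · rw [hb1 i hi (by omega), hb1 j (by omega) hj]
        have := hjm (show i - 1 ≤ j - 1 by omega)
        omega
    have hhm : ∀ j, MD (m * D + (r + 1) ^ 2 + 2) (h j) := by
      intro j
      rw [hh]
      simp only
      split_ifs
      · exact (MD.const true).mono (Nat.zero_le _)
      · exact hk1' _
      · exact MD.or (hthr _) (hk1 _)
    obtain ⟨g, hg1, hg2⟩ := BlockUp_glue hr (by omega) t b h hbm hhm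
    have hg : g = fun x => if a ≤ wt x ∧ wt x < a + W * m then f x else true := by
      funext x
      have hWm : (W - 1) * m + m = W * m := by
        obtain ⟨V, rfl⟩ : ∃ V, W = V + 1 := ⟨W - 1, by omega⟩
        rw [Nat.add_sub_cancel]
        ring
      rcases Nat.lt_or_ge (wt x) a with h1 | h1
      · rw [hg2 0 (by omega) x (by rw [hb0]; exact Nat.zero_le _)
          (by rw [hb1 (0 + 1) (by omega) (by omega)]; simpa using h1)]
        rw [if_neg (by omega), hh]
        simp
      · rcases Nat.lt_or_ge (wt x) (a + (W - 1) * m) with h2 | h2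
        · obtain ⟨j, hj1, hj2, hj3⟩ := BlockUp_index hm h1 h2
          have e : (j + 1) * m = j * m + m := by ring
          rw [hg2 (j + 1) (by omega) x
            (by rw [hb1 (j + 1) (by omega) (by omega), Nat.add_sub_cancel]; exact hj2)
            (by rw [hb1 (j + 1 + 1) (by omega) (by omega), Nat.add_sub_cancel, e]; omega)]
          rw [if_pos ⟨h1, by omega⟩, hh]
          simp only
          rw [if_neg (by omega), if_pos (by omega), Nat.add_sub_cancel]
          exact hk2 j x hj2 hj3
        · rw [hg2 W hWt x (by rw [hb1 W hW1 le_rfl]; exact h2)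
            (by rw [hb2 (W + 1) (by omega)]; have := hwt x; omega)]
          rw [hh]
          simp only
          rw [if_neg (show ¬ W = 0 by omega), if_neg (show ¬ W < W by omega)]
          by_cases h3 : a + W * m ≤ wt x
          · rw [if_neg (by omega), decide_eq_true h3, Bool.true_or]
          · rw [if_pos ⟨h1, by omega⟩, decide_eq_false h3, Bool.false_or]
            exact hk2 (W - 1) x h2 (by omega)
    rw [← hg]
    exact hg1.computes

end Pool.Agent.TAvg
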