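import Mathlib
import Pool.Agent.TAvg.Defs
import Pool.Agent.TAvg.BlockUp
import Pool.Agent.TOpt.UpFin

/-!
# The upper bound on average

PACKAGE. Prove `avg_upper` from `few_not_block`, `few_not` and `inPL_depth`. Compare `upper_bound` in
`Pool/Agent/TOpt/UpFin.lean`; helper lemmas allowed, keep the statement.

PROOF. Let `w` be a distribution on `Fin n → Bool`. `m ≥ 1`, since otherwise the hypothesis is false.
Let `Λ = log n + 2`. As in `upper_bound` replace `t` by `min t Λ` (if `t > Λ` then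
`n < 2 ^ Λ - 1 + 1`, so the hypothesis also holds for `Λ`). If `t = 0` then `n < m`, and
`few_not` with `t = 0` gives a circuit for `slice L n`, which is right with probability
`1 ≥ (1 + 1 / e) / 2`. Let `t ≥ 1`, `W = 2 ^ t - 1 ≥ 1`, `m' = 2 m`: `e W m' ≥ (W e + 1) m > n`. For
`b < e` and `c : Bool` let `h b c x = if b W m' ≤ wt x ∧ wt x < (b + 1) W m' then f x else c`,
`f = slice L n` (`few_not_block` with `a = b W m'`). For every `x` there is exactly one `b < e` with
`b W m' ≤ wt x < (b + 1) W m'` (`wt x ≤ n`), and so exactly `2 + (e - 1) = e + 1` pairs `(b, c)` with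
`h b c x = f x`. So `∑ (b, c), ∑ (x : h b c x = f x), w x = e + 1`, and one of the `2 e` pairs has
`∑ (x : h b c x = f x), w x ≥ (e + 1) / (2 e) = (1 + 1 / e) / 2`. The depth
`(t + 1) (2 m Λ ^ a + Λ ^ 2 + 2 + 2 t)` is at most `m Λ ^ C` for `C = a + 9` or so.
-/

set_option autoImplicit false

namespace Pool.Agent.TAvg

open Pool.Agent.FewNeg Pool.Agent.TOpt Pool.Agent.BookPL

/-- The averaging argument. -/
private theorem AvgUp_avg {X : Type} [Fintype X] {w : X → ℝ} (hw0 : ∀ x, 0 ≤ w x)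
    (hw1 : ∑ x, w x = 1) (f : X → Bool) (ht : ℕ → Bool → X → Bool) (B : ℕ → X → Prop) {e : ℕ}
    (he : 1 ≤ e) (h1 : ∀ b x, ht b (f x) x = f x) (h2 : ∀ b c x, B b x → ht b c x = f x)
    (h3 : ∀ x, ∃ b, b < e ∧ B b x)
    (h4 : ∀ b c, ∑ x ∈ Finset.univ.filter (fun x => ht b c x = f x), w x <
      (1 + 1 / (e : ℝ)) / 2) : False := by
  classical
  have e1 : ∀ b, 1 + ∑ x, (if B b x then w x else 0) ≤
      (∑ x ∈ Finset.univ.filter (fun x => ht b true x = f x), w x) +
      ∑ x ∈ Finset.univ.filter (fun x => ht b false x = f x), w x := by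
    intro b
    rw [← hw1, Finset.sum_filter, Finset.sum_filter, ← Finset.sum_add_distrib,
      ← Finset.sum_add_distrib]
    apply Finset.sum_le_sum
    intro x _
    have hx := hw0 x
    have h5 := h1 b x
    by_cases hB : B b x
    · rw [if_pos hB, if_pos (h2 b true x hB), if_pos (h2 b false x hB)]
    · rw [if_neg hB]
      cases hf : f x with
      | true =>
        rw [hf] at h5
        rw [if_pos h5]
        split_ifs <;> linarith
      | false =>
        rw [hf] at h5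
        rw [if_pos h5]
        split_ifs <;> linarith
  have e2 : ∀ x, w x ≤ ∑ b ∈ Finset.range e, (if B b x then w x else 0) := by
    intro x
    obtain ⟨b, hb, hB⟩ := h3 x
    calc w x = (if B b x then w x else 0) := by rw [if_pos hB]
      _ ≤ _ := Finset.single_le_sum (f := fun b => if B b x then w x else 0)
        (fun b _ => by
          show (0 : ℝ) ≤ if B b x then w x else 0
          split_ifs
          · exact hw0 x
          · exact le_rfl) (Finset.mem_range.2 hb)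
  have e3 : (1 : ℝ) ≤ ∑ b ∈ Finset.range e, ∑ x, (if B b x then w x else 0) := by
    rw [Finset.sum_comm, ← hw1]
    exact Finset.sum_le_sum fun x _ => e2 x
  have e4 : ∑ b ∈ Finset.range e, ((∑ x ∈ Finset.univ.filter (fun x => ht b true x = f x), w x) +
      ∑ x ∈ Finset.univ.filter (fun x => ht b false x = f x), w x) <
      ∑ b ∈ Finset.range e, (1 + 1 / (e : ℝ)) := by
    apply Finset.sum_lt_sum_of_nonempty (Finset.nonempty_range_iff.2 (by omega))
    intro b _
    have := h4 b true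
    have := h4 b false
    linarith
  have e5 : ∑ b ∈ Finset.range e, (1 + ∑ x, (if B b x then w x else 0)) ≤
      ∑ b ∈ Finset.range e, ((∑ x ∈ Finset.univ.filter (fun x => ht b true x = f x), w x) +
      ∑ x ∈ Finset.univ.filter (fun x => ht b false x = f x), w x) :=
    Finset.sum_le_sum fun b _ => e1 b
  rw [Finset.sum_add_distrib] at e5
  have e6 : ∑ b ∈ Finset.range e, (1 : ℝ) = e := by simp
  have e7 : ∑ b ∈ Finset.range e, (1 + 1 / (e : ℝ)) = e + 1 := by
    rw [Finset.sum_const, Finset.card_range, nsmul_eq_mul]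
    have : (e : ℝ) ≠ 0 := by
      have : (0 : ℝ) < e := by exact_mod_cast he
      exact this.ne'
    field_simp
  linarith

theorem avg_upper {L : Set (List Bool)} (h : InPL Bool L) (hL : ∀ n, Monotone (slice L n)) :
    ∃ C : ℕ, ∀ n m t e : ℕ, 1 ≤ e → n < ((2 ^ t - 1) * e + 1) * m →
      ¬ HardDist (fun g => ∃ s, Computes s (m * (Nat.log 2 n + 2) ^ C) t g) (slice L n) e := by
  obtain ⟨a, ha⟩ := inPL_depth h
  refine ⟨a + 9, fun n m t e he hnt => ?_⟩
  rintro ⟨w, hw0, hw1, hw⟩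
  obtain ⟨φ, hφ, hfφ⟩ := ha n
  have hm : 1 ≤ m := by
    rcases Nat.eq_zero_or_pos m with h0 | h0
    · rw [h0, Nat.mul_zero] at hnt
      omega
    · exact h0
  have hlog : n < 2 ^ (Nat.log 2 n + 1) := Nat.lt_pow_succ_log_self (by norm_num) n
  set Λ : ℕ := Nat.log 2 n + 2 with hΛ
  have hΛ2 : 2 ≤ Λ := by omega
  have hnΛ : n < 2 ^ Λ :=
    hlog.trans_le (Nat.pow_le_pow_right (by norm_num) (by omega))
  have hcard : Fintype.card (Fin n) ≤ 2 ^ (Nat.log 2 n + 1) := by
    rw [Fintype.card_fin]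
    exact hlog.le
  obtain ⟨t', ht'⟩ : ∃ t', t' = min t Λ := ⟨_, rfl⟩
  have ht1 : t' ≤ t := ht' ▸ min_le_left _ _
  have ht2 : t' ≤ Λ := ht' ▸ min_le_right _ _
  have hm' : n < ((2 ^ t' - 1) * e + 1) * m := by
    rcases le_total t Λ with h1 | h1
    · rwa [ht', min_eq_left h1]
    · rw [ht', min_eq_right h1]
      have h2 : 1 ≤ 2 ^ Λ := Nat.one_le_two_pow
      have h3 : 2 ^ Λ - 1 ≤ (2 ^ Λ - 1) * e := Nat.le_mul_of_pos_right _ he
      have h4 : (2 ^ Λ - 1) * e + 1 ≤ ((2 ^ Λ - 1) * e + 1) * m := Nat.le_mul_of_pos_right _ hm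
      omega
  have e0 : Nat.log 2 n + 1 + 1 = Λ := rfl
  have e1 : t' + 1 ≤ Λ ^ 2 := by nlinarith
  have e2 : 2 * m * Λ ^ a + Λ ^ 2 + 2 + 2 * t' ≤ m * Λ ^ (a + 6) := by
    have h2 : Λ ^ 2 + 2 + 2 * t' ≤ Λ ^ 4 := by
      have h3 : Λ + 1 ≤ Λ ^ 2 := by nlinarith
      have h4 : (Λ + 1) ^ 2 ≤ (Λ ^ 2) ^ 2 := Nat.pow_le_pow_left h3 2
      have h5 : (Λ ^ 2) ^ 2 = Λ ^ 4 := by ring
      have h6 : Λ ^ 4 = Λ ^ 2 * Λ ^ 2 := by ring
      have h7 : 4 ≤ Λ ^ 2 := by nlinarith
      nlinarith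
    have h6 : Λ ^ a ≤ Λ ^ (a + 4) := Nat.pow_le_pow_right (by omega) (by omega)
    have h7 : Λ ^ 4 ≤ Λ ^ (a + 4) := Nat.pow_le_pow_right (by omega) (by omega)
    have h8 : Λ ^ (a + 6) = (Λ * Λ) * Λ ^ (a + 4) := by ring
    have h9 : m * Λ ^ a ≤ m * Λ ^ (a + 4) := Nat.mul_le_mul_left m h6
    have h10 : Λ ^ 4 ≤ m * Λ ^ (a + 4) := h7.trans (Nat.le_mul_of_pos_left _ hm)
    have h11 : 4 * (m * Λ ^ (a + 4)) ≤ m * Λ ^ (a + 6) := by
      rw [h8]
      have h12 : 4 * (m * Λ ^ (a + 4)) ≤ (Λ * Λ) * (m * Λ ^ (a + 4)) :=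
        Nat.mul_le_mul_right _ (by nlinarith)
      calc 4 * (m * Λ ^ (a + 4)) ≤ (Λ * Λ) * (m * Λ ^ (a + 4)) := h12
        _ = m * ((Λ * Λ) * Λ ^ (a + 4)) := by ring
    have h13 : 2 * m * Λ ^ a = 2 * (m * Λ ^ a) := by ring
    omega
  have e3 : (t' + 1) * (2 * m * Λ ^ a + Λ ^ 2 + 2 + 2 * t') ≤ m * Λ ^ (a + 9) := by
    calc (t' + 1) * (2 * m * Λ ^ a + Λ ^ 2 + 2 + 2 * t')
        ≤ Λ ^ 2 * (m * Λ ^ (a + 6)) := Nat.mul_le_mul e1 e2
      _ = m * Λ ^ (a + 8) := by ring
      _ ≤ m * Λ ^ (a + 9) :=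
        Nat.mul_le_mul_left m (Nat.pow_le_pow_right (by omega) (by omega))
  rcases Nat.eq_zero_or_pos t' with h0 | h0
  · -- no negations
    have h5 : n < 2 ^ 0 * m := by
      rw [h0] at hm'
      simpa using hm'
    obtain ⟨s, hs⟩ := few_not (hL n) hφ hfφ hcard m 0 (by rwa [Fintype.card_fin])
    have h6 := hw (slice L n) ⟨s, hs.mono le_rfl (by
      rw [e0]
      refine le_trans ?_ e3
      rw [h0]
      have : m * Λ ^ a ≤ 2 * m * Λ ^ a := by
        rw [Nat.mul_assoc]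
        omega
      omega) (Nat.zero_le _)⟩
    simp only [Finset.filter_true] at h6
    rw [hw1] at h6
    have h7 : (1 : ℝ) / e ≤ 1 := by
      rw [div_le_one (by exact_mod_cast he)]
      exact_mod_cast he
    linarith
  · obtain ⟨W, hW⟩ : ∃ W, W = 2 ^ t' - 1 := ⟨_, rfl⟩
    have h2t : 2 ≤ 2 ^ t' := by
      calc 2 = 2 ^ 1 := (pow_one 2).symm
        _ ≤ 2 ^ t' := Nat.pow_le_pow_right (by norm_num) h0
    have hW1 : 1 ≤ W := by omega
    rw [← hW] at hm'
    have hM : 0 < W * (2 * m) := by positivity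
    refine AvgUp_avg hw0 hw1 (slice L n)
      (fun b c x => if b * (W * (2 * m)) ≤ wt x ∧ wt x < b * (W * (2 * m)) + W * (2 * m) then
        slice L n x else c)
      (fun b x => b * (W * (2 * m)) ≤ wt x ∧ wt x < b * (W * (2 * m)) + W * (2 * m)) he
      ?_ ?_ ?_ ?_
    · intro b x
      show (if _ then _ else _) = _
      split_ifs <;> rfl
    · intro b c x hB
      show (if _ then _ else _) = _
      rw [if_pos hB]
    · intro x
      have hx : wt x ≤ n := by
        have : wt x ≤ Fintype.card (Fin n) := by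
          rw [← Finset.card_univ]
          exact Finset.card_le_card (Finset.filter_subset _ _)
        rwa [Fintype.card_fin] at this
      refine ⟨wt x / (W * (2 * m)), ?_, Nat.div_mul_le_self _ _, ?_⟩
      · rw [Nat.div_lt_iff_lt_mul hM]
        have h5 : (W * e + 1) * m ≤ e * (W * (2 * m)) := by
          have h6 : 1 ≤ W * e := Nat.mul_pos hW1 he
          have h7 : (W * e + 1) * m ≤ (2 * (W * e)) * m := Nat.mul_le_mul_right _ (by omega)
          calc (W * e + 1) * m ≤ (2 * (W * e)) * m := h7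
            _ = e * (W * (2 * m)) := by ring
        omega
      · have h3 := Nat.lt_mul_div_succ (wt x) hM
        rw [Nat.mul_succ, Nat.mul_comm] at h3
        exact h3
    · intro b c
      obtain ⟨s, hs⟩ := few_not_block (hL n) hφ hfφ hcard (2 * m) t' (b * (W * (2 * m)))
        (by omega) c
      rw [← hW] at hs
      exact hw _ ⟨s, hs.mono le_rfl (by rw [e0]; exact e3) ht1⟩

end Pool.Agent.TAvg
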